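import Pool.Agent.H749R3.Count2

set_option autoImplicit false

/-! Coarse equivalences of full box spaces of free groups. -/

namespace H749.Box

/-- closeness in the quotient by `N` -/
def nearN {k : ℕ} (N : Subgroup (FreeGroup (Fin k))) (r : ℕ) (x y : FreeGroup (Fin k)) : Prop :=
  ∃ g : FreeGroup (Fin k), g⁻¹ * x⁻¹ * y ∈ N ∧ g.norm ≤ r

theorem nearN_iff {k : ℕ} (N : Subgroup (FreeGroup (Fin k))) [N.Normal] (r : ℕ)
    (x y : FreeGroup (Fin k)) : nearN N r x y ↔ ∃ u : FreeGroup (Fin k), u.norm ≤ r ∧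
      ((y⁻¹ : FreeGroup (Fin k)) : FreeGroup (Fin k) ⧸ N) =
        u • ((x⁻¹ : FreeGroup (Fin k)) : FreeGroup (Fin k) ⧸ N) := by
  constructor
  · rintro ⟨g, hg, hr⟩
    refine ⟨g⁻¹, by rwa [FreeGroup.norm_inv_eq], ?_⟩
    rw [smul_mk, QuotientGroup.eq, inv_inv]
    exact (‹N.Normal›.mem_comm_iff).1 hg
  · rintro ⟨u, hu, h⟩
    refine ⟨u⁻¹, ?_, by rwa [FreeGroup.norm_inv_eq]⟩
    rw [smul_mk, QuotientGroup.eq, inv_inv] at h
    rw [inv_inv]
    exact (‹N.Normal›.mem_comm_iff).1 h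

theorem nearN_mono {k : ℕ} {N : Subgroup (FreeGroup (Fin k))} {r s : ℕ} (h : r ≤ s)
    {x y : FreeGroup (Fin k)} (hx : nearN N r x y) : nearN N s x y := by
  obtain ⟨g, h1, h2⟩ := hx
  exact ⟨g, h1, h2.trans h⟩

/-- One half of the translation from the coarse picture to quotients. -/
theorem half {m n : ℕ} (M : Subgroup (FreeGroup (Fin m))) [M.Normal]
    (N : Subgroup (FreeGroup (Fin n))) [N.Normal] (L : ℕ)
    (φ : FreeGroup (Fin m) → FreeGroup (Fin n)) (ψ : FreeGroup (Fin n) → FreeGroup (Fin m))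
    (B1 : ∀ x y, nearN M 1 x y → nearN N L (φ x) (φ y))
    (B2 : ∀ x y, nearN N 1 x y → nearN M L (ψ x) (ψ y))
    (B3 : ∀ x, nearN M L (ψ (φ x)) x)
    (f : FreeGroup (Fin m) ⧸ M → FreeGroup (Fin n) ⧸ N)
    (g : FreeGroup (Fin n) ⧸ N → FreeGroup (Fin m) ⧸ M)
    (hf : ∀ q, f q = (((φ (Quotient.out q)⁻¹)⁻¹ : FreeGroup (Fin n)) : FreeGroup (Fin n) ⧸ N))
    (hg : ∀ q, g q = (((ψ (Quotient.out q)⁻¹)⁻¹ : FreeGroup (Fin m)) : FreeGroup (Fin m) ⧸ M)) :
    (∀ x (s : Fin m), ∃ u : FreeGroup (Fin n), u.norm ≤ 2 * L ∧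
      f (FreeGroup.of s • x) = u • f x) ∧
    (∀ x, ∃ u : FreeGroup (Fin m), u.norm ≤ 2 * L ∧ g (f x) = u • x) := by
  have ho : ∀ q : FreeGroup (Fin m) ⧸ M,
    ((Quotient.out q : FreeGroup (Fin m)) : FreeGroup (Fin m) ⧸ M) = q := fun q =>
      Quotient.out_eq q
  have ho' : ∀ q : FreeGroup (Fin n) ⧸ N,
    ((Quotient.out q : FreeGroup (Fin n)) : FreeGroup (Fin n) ⧸ N) = q := fun q =>
      Quotient.out_eq q
  constructor
  · intro x s
    have h1 : nearN M 1 (Quotient.out x)⁻¹ (Quotient.out (FreeGroup.of s • x))⁻¹ := by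
      rw [nearN_iff]
      refine ⟨FreeGroup.of s, (FreeGroup.norm_of s).le, ?_⟩
      rw [inv_inv, inv_inv, ho, ho]
    have h2 := B1 _ _ h1
    rw [nearN_iff] at h2
    obtain ⟨u, hu, h3⟩ := h2
    refine ⟨u, by omega, ?_⟩
    rw [hf, hf, h3]
  · intro x
    set v := φ (Quotient.out x)⁻¹ with hv
    have h1 : nearN N 1 v (Quotient.out (f x))⁻¹ := by
      rw [nearN_iff]
      refine ⟨1, by rw [FreeGroup.norm_one]; omega, ?_⟩
      rw [inv_inv, ho', one_smul, hf, ← hv]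
    have h2 := B2 _ _ h1
    rw [nearN_iff] at h2
    obtain ⟨u₁, hu₁, h3⟩ := h2
    have h4 := B3 (Quotient.out x)⁻¹
    rw [nearN_iff, ← hv, inv_inv, ho] at h4
    obtain ⟨u₂, hu₂, h5⟩ := h4
    refine ⟨u₁ * u₂⁻¹, ?_, ?_⟩
    · refine (FreeGroup.norm_mul_le _ _).trans ?_
      rw [FreeGroup.norm_inv_eq]; omega
    · rw [hg, h3, mul_smul, eq_comm]
      congr 1
      rw [inv_smul_eq_iff, ← h5]

theorem isPair_of_coarse {m n : ℕ} (M : Subgroup (FreeGroup (Fin m))) [M.Normal]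
    (N : Subgroup (FreeGroup (Fin n))) [N.Normal] (hMi : M.index ≠ 0) (hNi : N.index ≠ 0)
    (L L' C R : ℕ) (hL' : L' = 2 * L) (hC : C = L' * L' + 2 * L' + 1) (hR1 : C ≤ R)
    (hR2 : L' * C ≤ R)
    (girth : ∀ w ∈ M, w.norm ≤ R → w = 1)
    (φ : FreeGroup (Fin m) → FreeGroup (Fin n)) (ψ : FreeGroup (Fin n) → FreeGroup (Fin m))
    (B1 : ∀ x y, nearN M 1 x y → nearN N L (φ x) (φ y))
    (B2 : ∀ x y, nearN N 1 x y → nearN M L (ψ x) (ψ y))
    (B3 : ∀ x, nearN M L (ψ (φ x)) x)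
    (B4 : ∀ y, nearN N L (φ (ψ y)) y) : IsPair C M N := by
  let f : FreeGroup (Fin m) ⧸ M → FreeGroup (Fin n) ⧸ N := fun q =>
    (((φ (Quotient.out q)⁻¹)⁻¹ : FreeGroup (Fin n)) : FreeGroup (Fin n) ⧸ N)
  let g : FreeGroup (Fin n) ⧸ N → FreeGroup (Fin m) ⧸ M := fun q =>
    (((ψ (Quotient.out q)⁻¹)⁻¹ : FreeGroup (Fin m)) : FreeGroup (Fin m) ⧸ M)
  obtain ⟨H1, H3⟩ := half M N L φ ψ B1 B2 B3 f g (fun q => rfl) (fun q => rfl)
  obtain ⟨H2, H4⟩ := half N M L ψ φ B2 B1 B4 g f (fun q => rfl) (fun q => rfl)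
  rw [← hL'] at H1 H2 H3 H4
  exact ⟨inferInstance, hMi, hNi, stepC M N L' C R hC f g H1 H2 H3 H4 girth hR1 hR2⟩

/-- finite index normal subgroups -/
abbrev NSub (k : ℕ) : Type := {N : Subgroup (FreeGroup (Fin k)) // N.Normal ∧ N.FiniteIndex}

/-- points of the full box space -/
abbrev XX (k : ℕ) : Type := NSub k × FreeGroup (Fin k)

/-- the distance of the full box space -/
structure IsBox (k : ℕ) (d : XX k → XX k → ℕ) : Prop where
  same : ∀ p q : XX k, p.1 = q.1 →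
        d p q = sInf {r : ℕ | ∃ g : FreeGroup (Fin k),
          g⁻¹ * p.2⁻¹ * q.2 ∈ p.1.val ∧ (FreeGroup.toWord g).length = r}
  diff : ∀ p q : XX k, p.1 ≠ q.1 → d p q = p.1.val.index + q.1.val.index

theorem IsBox.le_of_near {k : ℕ} {d : XX k → XX k → ℕ} (hd : IsBox k d) (N : NSub k) {r : ℕ}
    {x y : FreeGroup (Fin k)} (h : nearN N.1 r x y) : d (N, x) (N, y) ≤ r := by
  obtain ⟨g, h1, h2⟩ := h
  rw [hd.same (N, x) (N, y) rfl]
  refine le_trans (Nat.sInf_le ?_) h2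
  exact ⟨g, h1, rfl⟩

theorem IsBox.near_of_le {k : ℕ} {d : XX k → XX k → ℕ} (hd : IsBox k d) (N : NSub k) {r : ℕ}
    {p q : XX k} (hp : p.1 = N) (hq : q.1 = N) (h : d p q ≤ r) : nearN N.1 r p.2 q.2 := by
  rw [hd.same p q (hp.trans hq.symm)] at h
  have hne : {r : ℕ | ∃ g : FreeGroup (Fin k),
          g⁻¹ * p.2⁻¹ * q.2 ∈ p.1.val ∧ (FreeGroup.toWord g).length = r}.Nonempty := by
    refine ⟨_, p.2⁻¹ * q.2, ?_, rfl⟩
    have : (p.2⁻¹ * q.2)⁻¹ * p.2⁻¹ * q.2 = 1 := by group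
    rw [this]; exact p.1.val.one_mem
  obtain ⟨g, h1, h2⟩ := Nat.sInf_mem hne
  rw [hp] at h1
  exact ⟨g, h1, by rw [FreeGroup.norm, h2]; exact h⟩

theorem IsBox.eq_of_le {k : ℕ} {d : XX k → XX k → ℕ} (hd : IsBox k d) {r : ℕ}
    {p q : XX k} (h : d p q ≤ r) (hr : r < p.1.val.index) : p.1 = q.1 := by
  by_contra hne
  rw [hd.diff p q hne] at h
  omega

theorem IsBox.eq_of_le' {k : ℕ} {d : XX k → XX k → ℕ} (hd : IsBox k d) {r : ℕ}
    {p q : XX k} (h : d p q ≤ r) (hr : r < q.1.val.index) : p.1 = q.1 := by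
  by_contra hne
  rw [hd.diff p q hne] at h
  omega

theorem stay {m n : ℕ} {d : XX n → XX n → ℕ} (hd : IsBox n d) (F : XX m → XX n) (L : ℕ)
    (A1 : ∀ (M : NSub m) x y, nearN M.1 1 x y → d (F (M, x)) (F (M, y)) ≤ L)
    (M : NSub m) (N : NSub n) (hN : L < N.1.index) (x : FreeGroup (Fin m))
    (hx : (F (M, x)).1 = N) : ∀ y, (F (M, y)).1 = N := by
  have step : ∀ x y, nearN M.1 1 x y → (F (M, x)).1 = N → (F (M, y)).1 = N := by
    intro x y hxy h
    have h1 := A1 M x y hxy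
    have h2 := hd.eq_of_le h1 (by rw [h]; exact hN)
    rw [← h2, h]
  have key : ∀ w x, (F (M, x)).1 = N → (F (M, x * w)).1 = N := by
    intro w
    induction w using FreeGroup.induction_on with
    | C1 => intro x hx; rwa [mul_one]
    | of s =>
      intro x hx
      refine step x _ ⟨FreeGroup.of s, ?_, (FreeGroup.norm_of s).le⟩ hx
      have : (FreeGroup.of s)⁻¹ * x⁻¹ * (x * FreeGroup.of s) = 1 := by group
      rw [this]; exact M.1.one_mem
    | inv_of s _ =>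
      intro x hx
      refine step x _ ⟨(FreeGroup.of s)⁻¹, ?_, ?_⟩ hx
      · have : (FreeGroup.of s)⁻¹⁻¹ * x⁻¹ * (x * (FreeGroup.of s)⁻¹) = 1 := by group
        rw [this]; exact M.1.one_mem
      · rw [FreeGroup.norm_inv_eq]; exact (FreeGroup.norm_of s).le
    | mul a b ha hb =>
      intro x hx
      rw [← mul_assoc]
      exact hb _ (ha _ hx)
  intro y
  have h1 := key (x⁻¹ * y) x hx
  rwa [mul_inv_cancel_left] at h1

/-- The main theorem: no coarse equivalence between the full box spaces when `n < m`, `2 ≤ m`. -/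
theorem no_coarse_lt {m n : ℕ} (hm : 2 ≤ m) (hnm : n < m) (dm : XX m → XX m → ℕ)
    (dn : XX n → XX n → ℕ) (hdm : IsBox m dm) (hdn : IsBox n dn) (φ : XX m → XX n)
    (ψ : XX n → XX m) (L : ℕ)
    (A1 : ∀ p q, dm p q ≤ 1 → dn (φ p) (φ q) ≤ L)
    (A2 : ∀ p q, dn p q ≤ 1 → dm (ψ p) (ψ q) ≤ L)
    (A3 : ∀ p, dm (ψ (φ p)) p ≤ L)
    (A4 : ∀ q, dn (φ (ψ q)) q ≤ L) : False := by
  classical
  obtain ⟨k, rfl⟩ : ∃ k, m = k + 1 := ⟨m - 1, by omega⟩
  have A1' : ∀ (M : NSub (k + 1)) x y, nearN M.1 1 x y → dn (φ (M, x)) (φ (M, y)) ≤ L :=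
    fun M x y h => A1 _ _ (hdm.le_of_near M h)
  have A2' : ∀ (N : NSub n) x y, nearN N.1 1 x y → dm (ψ (N, x)) (ψ (N, y)) ≤ L :=
    fun N x y h => A2 _ _ (hdn.le_of_near N h)
  -- the component map
  let cm : NSub (k + 1) → NSub n := fun M => (φ (M, 1)).1
  have hback : ∀ M : NSub (k + 1), L < M.1.index → ∀ y, (ψ (cm M, y)).1 = M := by
    intro M hM
    have h1 : (ψ (φ (M, 1))).1 = M := by
      have := hdm.eq_of_le' (A3 (M, 1)) hM
      exact this
    exact stay hdm ψ L A2' (cm M) M hM (φ (M, 1)).2 h1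
  -- constants
  set L' := 2 * L with hL'
  set C := L' * L' + 2 * L' + 1 with hC
  obtain ⟨A, B, hAB⟩ := index_bound (m := k + 1) (n := n) hm C
  obtain ⟨M₀, hM₀n, hM₀i, hM₀g⟩ := exists_girth (k + 1) (C + L' * C)
  set e := M₀.index with he
  obtain ⟨c, hc⟩ := count_le n (e * A)
  set SL : Set (Subgroup (FreeGroup (Fin n))) := {N | N.index ≠ 0 ∧ N.index ≤ L} with hSL
  have hSLf : SL.Finite := finite_index_le n L
  have hpair : ∀ M : NSub (k + 1), L < M.1.index → L < (cm M).1.index → M.1 ≤ M₀ →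
      IsPair C M.1 (cm M).1 := by
    intro M hM hN hle
    have hMn : M.1.Normal := M.2.1
    have hNn : (cm M).1.Normal := (cm M).2.1
    have hφ : ∀ x, (φ (M, x)).1 = cm M := stay hdn φ L A1' M (cm M) hN 1 rfl
    have hψ := hback M hM
    have pairφ : ∀ x, φ (M, x) = (cm M, (φ (M, x)).2) := fun x => Prod.ext (hφ x) rfl
    have pairψ : ∀ y, ψ (cm M, y) = (M, (ψ (cm M, y)).2) := fun y => Prod.ext (hψ y) rfl
    refine isPair_of_coarse M.1 (cm M).1 (by omega) (by omega) L L' C (C + L' * C) hL' hC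
      (by omega) (by omega) (fun w hw hn => hM₀g w (hle hw) hn)
      (fun x => (φ (M, x)).2) (fun y => (ψ (cm M, y)).2) ?_ ?_ ?_ ?_
    · intro x y h
      exact hdn.near_of_le (cm M) (hφ x) (hφ y) (A1' M x y h)
    · intro x y h
      exact hdm.near_of_le M (hψ x) (hψ y) (A2' (cm M) x y h)
    · intro x
      have h1 := A3 (M, x)
      rw [pairφ x] at h1
      exact hdm.near_of_le (q := (M, x)) M (hψ _) rfl h1
    · intro y
      have h1 := A4 (cm M, y)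
      rw [pairψ y] at h1
      exact hdn.near_of_le (q := (cm M, y)) (cm M) (hφ _) rfl h1
  -- the prime
  obtain ⟨ℓ, hℓ1, hℓ⟩ := Nat.exists_infinite_primes
    (e * A + B + L + e + Nat.card SL + c + 2)
  have hF : Fact ℓ.Prime := ⟨hℓ⟩
  have he0 : 0 < e := Nat.pos_of_ne_zero hM₀i
  have hcop : Nat.Coprime e ℓ := by
    rw [Nat.coprime_comm, hℓ.coprime_iff_not_dvd]
    exact Nat.not_dvd_of_pos_of_lt he0 (by omega)
  have hidx : ∀ z : Fin k → ZMod ℓ, (M₀ ⊓ (chz ℓ z).ker).index = e * ℓ := fun z =>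
    fam_index ℓ M₀ hM₀i hcop z
  let Mz : (Fin k → ZMod ℓ) → NSub (k + 1) := fun z => ⟨M₀ ⊓ (chz ℓ z).ker,
    inferInstance, ⟨by rw [hidx]; exact Nat.mul_ne_zero hM₀i hℓ.ne_zero⟩⟩
  have hMzi : ∀ z, (Mz z).1.index = e * ℓ := hidx
  have hMzL : ∀ z, L < (Mz z).1.index := by
    intro z
    rw [hMzi]
    calc L < ℓ := by omega
      _ ≤ e * ℓ := Nat.le_mul_of_pos_left ℓ he0
  have hMinj : Function.Injective Mz := by
    intro z z' h
    exact fam_inj ℓ M₀ hM₀i hcop (congrArg Subtype.val h)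
  obtain ⟨hcf, hcc⟩ := hc ℓ hℓ (by omega)
  -- the map to subgroups of the free group of rank `n`
  have hmem : ∀ z, (cm (Mz z)).1 ∈ SL ∪ cnt n (e * A) ℓ := by
    intro z
    by_cases hs : (cm (Mz z)).1.index ≤ L
    · left
      exact ⟨(cm (Mz z)).2.2.index_ne_zero, hs⟩
    · right
      push Not at hs
      have hp := hpair (Mz z) (hMzL z) hs inf_le_left
      obtain ⟨p, q, hp0, hpB, hq0, hqA, hpq⟩ := hAB _ _ hp
      rw [hMzi] at hpq
      have h1 : ℓ ∣ p * (cm (Mz z)).1.index := ⟨e * q, by rw [← hpq]; ring⟩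
      have h2 : ℓ ∣ (cm (Mz z)).1.index := by
        rcases (hℓ.dvd_mul).1 h1 with h3 | h3
        · exact absurd h3 (Nat.not_dvd_of_pos_of_lt hp0 (by omega))
        · exact h3
      obtain ⟨a, ha⟩ := h2
      refine ⟨(cm (Mz z)).2.1, a, ?_, ?_, by rw [ha]; ring⟩
      · rcases Nat.eq_zero_or_pos a with h3 | h3
        · rw [h3, mul_zero] at ha
          omega
        · exact h3
      · have h4 : e * q = p * a := by
          rw [ha] at hpq
          apply Nat.eq_of_mul_eq_mul_left hℓ.pos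
          calc ℓ * (e * q) = e * ℓ * q := by ring
            _ = p * (ℓ * a) := hpq
            _ = ℓ * (p * a) := by ring
        calc a ≤ p * a := Nat.le_mul_of_pos_left a hp0
          _ = e * q := h4.symm
          _ ≤ e * A := Nat.mul_le_mul_left e hqA
  let G : (Fin k → ZMod ℓ) → (SL ∪ cnt n (e * A) ℓ : Set (Subgroup (FreeGroup (Fin n)))) :=
    fun z => ⟨(cm (Mz z)).1, hmem z⟩
  have hG : Function.Injective G := by
    intro z z' h
    have h0 : (cm (Mz z)).1 = (cm (Mz z')).1 :=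
      congrArg (fun t : (SL ∪ cnt n (e * A) ℓ : Set (Subgroup (FreeGroup (Fin n)))) => t.1) h
    have h1 : cm (Mz z) = cm (Mz z') := Subtype.ext h0
    have h2 := hback (Mz z) (hMzL z) 1
    have h3 := hback (Mz z') (hMzL z') 1
    rw [h1, h3] at h2
    exact (hMinj h2).symm
  have hfinU : Finite (SL ∪ cnt n (e * A) ℓ : Set (Subgroup (FreeGroup (Fin n)))) :=
    (hSLf.union hcf).to_subtype
  have h1 := Nat.card_le_card_of_injective G hG
  rw [Nat.card_fun, Nat.card_fin, Nat.card_zmod] at h1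
  have h2 : Nat.card (SL ∪ cnt n (e * A) ℓ : Set (Subgroup (FreeGroup (Fin n)))) ≤
      Nat.card SL + Nat.card (cnt n (e * A) ℓ) := by
    simp only [Nat.card_coe_set_eq]
    exact Set.ncard_union_le _ _
  have h3 : ℓ ^ k ≤ Nat.card SL + Nat.card (cnt n (e * A) ℓ) := h1.trans h2
  have h4 : ℓ ^ n ≤ ℓ ^ k := Nat.pow_le_pow_right hℓ.pos (by omega)
  set s := Nat.card SL with hs
  set t := Nat.card (cnt n (e * A) ℓ) with ht
  obtain ⟨l, rfl⟩ : ∃ l, ℓ = l + 1 := ⟨ℓ - 1, by have := hℓ.pos; omega⟩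
  rw [Nat.add_sub_cancel] at hcc
  have h5 : l * (l + 1) ^ k ≤ l * s + c * (l + 1) ^ k := by
    calc l * (l + 1) ^ k ≤ l * (s + t) := Nat.mul_le_mul_left l h3
      _ = l * s + l * t := by ring
      _ ≤ l * s + c * (l + 1) ^ n := by omega
      _ ≤ l * s + c * (l + 1) ^ k := by
        have := Nat.mul_le_mul_left c h4
        omega
  have h6 : l + 1 ≤ (l + 1) ^ k := by
    calc l + 1 = (l + 1) ^ 1 := (pow_one _).symm
      _ ≤ (l + 1) ^ k := Nat.pow_le_pow_right (by omega) (by omega)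
  generalize (l + 1) ^ k = Y at h5 h6
  have h9 : c + s + 1 ≤ l := by omega
  clear_value s
  clear * - h5 h6 h9
  obtain ⟨r, rfl⟩ : ∃ r, l = c + s + 1 + r := ⟨l - (c + s + 1), by omega⟩
  have h7 : (s + 1 + r) * Y ≤ (c + s + 1 + r) * s := by nlinarith
  have h8 : (s + 1 + r) * (c + s + 1 + r + 1) ≤ (c + s + 1 + r) * s :=
    (Nat.mul_le_mul_left _ h6).trans h7
  nlinarith

end H749.Box
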