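import Pool.Agent.H749R3.Coarse

set_option autoImplicit false

/-! Coarse equivalences of full box spaces of free groups, for arbitrary metrics on the coarse
disjoint union. -/

namespace H749.Box

/-- What is needed from `d p q ≤ L`: if one of the components is large then the components agree,
and in that case the points are close in the quotient. -/
def close {k : ℕ} (T L : ℕ) (p q : XX k) : Prop :=
  (T < p.1.val.index ∨ T < q.1.val.index → p.1 = q.1) ∧ (p.1 = q.1 → nearN p.1.val L p.2 q.2)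

theorem stay2 {m n : ℕ} (F : XX m → XX n) (T L : ℕ)
    (A1 : ∀ (M : NSub m) x y, nearN M.1 1 x y → close T L (F (M, x)) (F (M, y)))
    (M : NSub m) (N : NSub n) (hN : T < N.1.index) (x : FreeGroup (Fin m))
    (hx : (F (M, x)).1 = N) : ∀ y, (F (M, y)).1 = N := by
  have step : ∀ x y, nearN M.1 1 x y → (F (M, x)).1 = N → (F (M, y)).1 = N := by
    intro x y hxy h
    have h1 := A1 M x y hxy
    have h2 := h1.1 (Or.inl (by rw [h]; exact hN))
    rw [← h2, h]
  have key : ∀ w x, (F (M, x)).1 = N → (F (M, x * w)).1 = N := by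
    intro w
    induction w using FreeGroup.induction_on with
    | C1 => intro x hx; rwa [mul_one]
    | of s =>
      intro x hx
      refine step x _ ⟨FreeGroup.of s, ?_, (FreeGroup.norm_of s).le⟩ hx
      have : (FreeGroup.of s)⁻¹ * x⁻¹ * (x * FreeGroup.of s) = 1 := by group
      rw [this]; exact M.1.one_mem
    | inv_of s _ =>
      intro x hx
      refine step x _ ⟨(FreeGroup.of s)⁻¹, ?_, ?_⟩ hx
      · have : (FreeGroup.of s)⁻¹⁻¹ * x⁻¹ * (x * (FreeGroup.of s)⁻¹) = 1 := by group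
        rw [this]; exact M.1.one_mem
      · rw [FreeGroup.norm_inv_eq]; exact (FreeGroup.norm_of s).le
    | mul a b ha hb =>
      intro x hx
      rw [← mul_assoc]
      exact hb _ (ha _ hx)
  intro y
  have h1 := key (x⁻¹ * y) x hx
  rwa [mul_inv_cancel_left] at h1

/-- The main theorem: no coarse equivalence between the full box spaces when `n < m`, `2 ≤ m`. -/
theorem no_coarse_lt2 {m n : ℕ} (hm : 2 ≤ m) (hnm : n < m) (φ : XX m → XX n)
    (ψ : XX n → XX m) (T L : ℕ)
    (A1' : ∀ (M : NSub m) x y, nearN M.1 1 x y → close T L (φ (M, x)) (φ (M, y)))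
    (A2' : ∀ (N : NSub n) x y, nearN N.1 1 x y → close T L (ψ (N, x)) (ψ (N, y)))
    (A3 : ∀ p, close T L (ψ (φ p)) p)
    (A4 : ∀ q, close T L (φ (ψ q)) q) : False := by
  classical
  obtain ⟨k, rfl⟩ : ∃ k, m = k + 1 := ⟨m - 1, by omega⟩
  -- the component map
  let cm : NSub (k + 1) → NSub n := fun M => (φ (M, 1)).1
  have hback : ∀ M : NSub (k + 1), T < M.1.index → ∀ y, (ψ (cm M, y)).1 = M := by
    intro M hM
    have h1 : (ψ (φ (M, 1))).1 = M := (A3 (M, 1)).1 (Or.inr hM)
    exact stay2 ψ T L A2' (cm M) M hM (φ (M, 1)).2 h1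
  -- constants
  set L' := 2 * L with hL'
  set C := L' * L' + 2 * L' + 1 with hC
  obtain ⟨A, B, hAB⟩ := index_bound (m := k + 1) (n := n) hm C
  obtain ⟨M₀, hM₀n, hM₀i, hM₀g⟩ := exists_girth (k + 1) (C + L' * C)
  set e := M₀.index with he
  obtain ⟨c, hc⟩ := count_le n (e * A)
  set SL : Set (Subgroup (FreeGroup (Fin n))) := {N | N.index ≠ 0 ∧ N.index ≤ T} with hSL
  have hSLf : SL.Finite := finite_index_le n T
  have hpair : ∀ M : NSub (k + 1), T < M.1.index → T < (cm M).1.index → M.1 ≤ M₀ →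
      IsPair C M.1 (cm M).1 := by
    intro M hM hN hle
    have hMn : M.1.Normal := M.2.1
    have hNn : (cm M).1.Normal := (cm M).2.1
    have hφ : ∀ x, (φ (M, x)).1 = cm M := stay2 φ T L A1' M (cm M) hN 1 rfl
    have hψ := hback M hM
    have pairφ : ∀ x, φ (M, x) = (cm M, (φ (M, x)).2) := fun x => Prod.ext (hφ x) rfl
    have pairψ : ∀ y, ψ (cm M, y) = (M, (ψ (cm M, y)).2) := fun y => Prod.ext (hψ y) rfl
    refine isPair_of_coarse M.1 (cm M).1 (by omega) (by omega) L L' C (C + L' * C) hL' hC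
      (by omega) (by omega) (fun w hw hn => hM₀g w (hle hw) hn)
      (fun x => (φ (M, x)).2) (fun y => (ψ (cm M, y)).2) ?_ ?_ ?_ ?_
    · intro x y h
      have h1 := (A1' M x y h).2 ((hφ x).trans (hφ y).symm)
      rwa [hφ x] at h1
    · intro x y h
      have h1 := (A2' (cm M) x y h).2 ((hψ x).trans (hψ y).symm)
      rwa [hψ x] at h1
    · intro x
      have h1 := A3 (M, x)
      rw [pairφ x] at h1
      have h2 := h1.2 (hψ _)
      rwa [hψ] at h2
    · intro y
      have h1 := A4 (cm M, y)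
      rw [pairψ y] at h1
      have h2 := h1.2 (hφ _)
      rwa [hφ] at h2
  -- the prime
  obtain ⟨ℓ, hℓ1, hℓ⟩ := Nat.exists_infinite_primes
    (e * A + B + T + e + Nat.card SL + c + 2)
  have hF : Fact ℓ.Prime := ⟨hℓ⟩
  have he0 : 0 < e := Nat.pos_of_ne_zero hM₀i
  have hcop : Nat.Coprime e ℓ := by
    rw [Nat.coprime_comm, hℓ.coprime_iff_not_dvd]
    exact Nat.not_dvd_of_pos_of_lt he0 (by omega)
  have hidx : ∀ z : Fin k → ZMod ℓ, (M₀ ⊓ (chz ℓ z).ker).index = e * ℓ := fun z =>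
    fam_index ℓ M₀ hM₀i hcop z
  let Mz : (Fin k → ZMod ℓ) → NSub (k + 1) := fun z => ⟨M₀ ⊓ (chz ℓ z).ker,
    inferInstance, ⟨by rw [hidx]; exact Nat.mul_ne_zero hM₀i hℓ.ne_zero⟩⟩
  have hMzi : ∀ z, (Mz z).1.index = e * ℓ := hidx
  have hMzL : ∀ z, T < (Mz z).1.index := by
    intro z
    rw [hMzi]
    calc T < ℓ := by omega
      _ ≤ e * ℓ := Nat.le_mul_of_pos_left ℓ he0
  have hMinj : Function.Injective Mz := by
    intro z z' h
    exact fam_inj ℓ M₀ hM₀i hcop (congrArg Subtype.val h)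
  obtain ⟨hcf, hcc⟩ := hc ℓ hℓ (by omega)
  -- the map to subgroups of the free group of rank `n`
  have hmem : ∀ z, (cm (Mz z)).1 ∈ SL ∪ cnt n (e * A) ℓ := by
    intro z
    by_cases hs : (cm (Mz z)).1.index ≤ T
    · left
      exact ⟨(cm (Mz z)).2.2.index_ne_zero, hs⟩
    · right
      push Not at hs
      have hp := hpair (Mz z) (hMzL z) hs inf_le_left
      obtain ⟨p, q, hp0, hpB, hq0, hqA, hpq⟩ := hAB _ _ hp
      rw [hMzi] at hpq
      have h1 : ℓ ∣ p * (cm (Mz z)).1.index := ⟨e * q, by rw [← hpq]; ring⟩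
      have h2 : ℓ ∣ (cm (Mz z)).1.index := by
        rcases (hℓ.dvd_mul).1 h1 with h3 | h3
        · exact absurd h3 (Nat.not_dvd_of_pos_of_lt hp0 (by omega))
        · exact h3
      obtain ⟨a, ha⟩ := h2
      refine ⟨(cm (Mz z)).2.1, a, ?_, ?_, by rw [ha]; ring⟩
      · rcases Nat.eq_zero_or_pos a with h3 | h3
        · rw [h3, mul_zero] at ha
          omega
        · exact h3
      · have h4 : e * q = p * a := by
          rw [ha] at hpq
          apply Nat.eq_of_mul_eq_mul_left hℓ.pos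
          calc ℓ * (e * q) = e * ℓ * q := by ring
            _ = p * (ℓ * a) := hpq
            _ = ℓ * (p * a) := by ring
        calc a ≤ p * a := Nat.le_mul_of_pos_left a hp0
          _ = e * q := h4.symm
          _ ≤ e * A := Nat.mul_le_mul_left e hqA
  let G : (Fin k → ZMod ℓ) → (SL ∪ cnt n (e * A) ℓ : Set (Subgroup (FreeGroup (Fin n)))) :=
    fun z => ⟨(cm (Mz z)).1, hmem z⟩
  have hG : Function.Injective G := by
    intro z z' h
    have h0 : (cm (Mz z)).1 = (cm (Mz z')).1 :=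
      congrArg (fun t : (SL ∪ cnt n (e * A) ℓ : Set (Subgroup (FreeGroup (Fin n)))) => t.1) h
    have h1 : cm (Mz z) = cm (Mz z') := Subtype.ext h0
    have h2 := hback (Mz z) (hMzL z) 1
    have h3 := hback (Mz z') (hMzL z') 1
    rw [h1, h3] at h2
    exact (hMinj h2).symm
  have hfinU : Finite (SL ∪ cnt n (e * A) ℓ : Set (Subgroup (FreeGroup (Fin n)))) :=
    (hSLf.union hcf).to_subtype
  have h1 := Nat.card_le_card_of_injective G hG
  rw [Nat.card_fun, Nat.card_fin, Nat.card_zmod] at h1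
  have h2 : Nat.card (SL ∪ cnt n (e * A) ℓ : Set (Subgroup (FreeGroup (Fin n)))) ≤
      Nat.card SL + Nat.card (cnt n (e * A) ℓ) := by
    simp only [Nat.card_coe_set_eq]
    exact Set.ncard_union_le _ _
  have h3 : ℓ ^ k ≤ Nat.card SL + Nat.card (cnt n (e * A) ℓ) := h1.trans h2
  have h4 : ℓ ^ n ≤ ℓ ^ k := Nat.pow_le_pow_right hℓ.pos (by omega)
  set s := Nat.card SL with hs
  set t := Nat.card (cnt n (e * A) ℓ) with ht
  obtain ⟨l, rfl⟩ : ∃ l, ℓ = l + 1 := ⟨ℓ - 1, by have := hℓ.pos; omega⟩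
  rw [Nat.add_sub_cancel] at hcc
  have h5 : l * (l + 1) ^ k ≤ l * s + c * (l + 1) ^ k := by
    calc l * (l + 1) ^ k ≤ l * (s + t) := Nat.mul_le_mul_left l h3
      _ = l * s + l * t := by ring
      _ ≤ l * s + c * (l + 1) ^ n := by omega
      _ ≤ l * s + c * (l + 1) ^ k := by
        have := Nat.mul_le_mul_left c h4
        omega
  have h6 : l + 1 ≤ (l + 1) ^ k := by
    calc l + 1 = (l + 1) ^ 1 := (pow_one _).symm
      _ ≤ (l + 1) ^ k := Nat.pow_le_pow_right (by omega) (by omega)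
  generalize (l + 1) ^ k = Y at h5 h6
  have h9 : c + s + 1 ≤ l := by omega
  clear_value s
  clear * - h5 h6 h9
  obtain ⟨r, rfl⟩ : ∃ r, l = c + s + 1 + r := ⟨l - (c + s + 1), by omega⟩
  have h7 : (s + 1 + r) * Y ≤ (c + s + 1 + r) * s := by nlinarith
  have h8 : (s + 1 + r) * (c + s + 1 + r + 1) ≤ (c + s + 1 + r) * s :=
    (Nat.mul_le_mul_left _ h6).trans h7
  nlinarith

end H749.Box
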