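import Mathlib

set_option autoImplicit false

/-! Cocycles over actions of free groups. -/

namespace H749.Box

section gen
variable {X : Type*} {Q : Type*} [MulAction (FreeGroup X) Q] {G : Type*} [Group G]

/-- the permutation of `Q × G` attached to a generator -/
def stepPerm (φ : X → Q → G) (s : X) : Equiv.Perm (Q × G) where
  toFun p := (FreeGroup.of s • p.1, φ s p.1 * p.2)
  invFun p := ((FreeGroup.of s)⁻¹ • p.1, (φ s ((FreeGroup.of s)⁻¹ • p.1))⁻¹ * p.2)
  left_inv p := by simp
  right_inv p := by simp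

/-- the skew product action -/
def Theta (φ : X → Q → G) : FreeGroup X →* Equiv.Perm (Q × G) := FreeGroup.lift (stepPerm φ)

/-- the cocycle generated by `φ` -/
def Ph (φ : X → Q → G) (w : FreeGroup X) (x : Q) : G := (Theta φ w (x, 1)).2

theorem Theta_of (φ : X → Q → G) (s : X) : Theta φ (FreeGroup.of s) = stepPerm φ s := by
  simp [Theta]

theorem Theta_apply (φ : X → Q → G) (w : FreeGroup X) :
    ∀ (x : Q) (y : G), Theta φ w (x, y) = (w • x, Ph φ w x * y) := by
  induction w using FreeGroup.induction_on with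
  | C1 => intro x y; simp [Ph]
  | of s => intro x y; simp [Ph, Theta_of, stepPerm]
  | inv_of s _ => 
    intro x y
    simp only [Ph, map_inv, Theta_of]
    show ((stepPerm φ s).symm (x, y)) = (_, ((stepPerm φ s).symm (x, 1)).2 * y)
    simp [stepPerm]
  | mul a b ha hb =>
    intro x y
    have h1 : ∀ z, Theta φ (a * b) (x, z) = ((a * b) • x, Ph φ a (b • x) * (Ph φ b x * z)) := by
      intro z
      rw [map_mul, Equiv.Perm.mul_apply, hb, ha, mul_smul]
    have h2 : Ph φ (a * b) x = Ph φ a (b • x) * Ph φ b x := by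
      rw [Ph, h1]; simp
    rw [h1, h2, mul_assoc]

theorem Ph_mul (φ : X → Q → G) (a b : FreeGroup X) (x : Q) :
    Ph φ (a * b) x = Ph φ a (b • x) * Ph φ b x := by
  rw [Ph, map_mul, Equiv.Perm.mul_apply, Theta_apply, Theta_apply]; simp

@[simp] theorem Ph_one (φ : X → Q → G) (x : Q) : Ph φ (1 : FreeGroup X) x = 1 := by
  simp [Ph]

theorem Ph_of (φ : X → Q → G) (s : X) (x : Q) : Ph φ (FreeGroup.of s) x = φ s x := by
  simp [Ph, Theta_of, stepPerm]

theorem Ph_inv (φ : X → Q → G) (a : FreeGroup X) (x : Q) :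
    Ph φ a⁻¹ x = (Ph φ a (a⁻¹ • x))⁻¹ := by
  have h := Ph_mul φ a a⁻¹ x
  rw [mul_inv_cancel, Ph_one] at h
  exact (inv_eq_of_mul_eq_one_right h.symm).symm

/-- two cocycles which agree on the generators agree. -/
theorem cocycle_ext (A B : FreeGroup X → Q → G)
    (hA : ∀ w w' x, A (w * w') x = A w (w' • x) * A w' x)
    (hB : ∀ w w' x, B (w * w') x = B w (w' • x) * B w' x)
    (h : ∀ s x, A (FreeGroup.of s) x = B (FreeGroup.of s) x) : ∀ w x, A w x = B w x := by
  have one : ∀ (A : FreeGroup X → Q → G),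
      (∀ w w' x, A (w * w') x = A w (w' • x) * A w' x) → ∀ x, A 1 x = 1 := by
    intro A hA x
    have h1 := hA 1 1 x
    rw [mul_one, one_smul] at h1
    exact (left_eq_mul.mp h1)
  have inv : ∀ (A : FreeGroup X → Q → G),
      (∀ w w' x, A (w * w') x = A w (w' • x) * A w' x) → ∀ w x, A w⁻¹ x = (A w (w⁻¹ • x))⁻¹ := by
    intro A hA w x
    have h1 := hA w w⁻¹ x
    rw [mul_inv_cancel, one A hA] at h1
    exact (inv_eq_of_mul_eq_one_right h1.symm).symm
  intro w
  induction w using FreeGroup.induction_on with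
  | C1 => intro x; rw [one A hA, one B hB]
  | of s => intro x; exact h s x
  | inv_of s _ => intro x; rw [inv A hA, inv B hB, h]
  | mul a b ha hb => intro x; rw [hA, hB, ha, hb]

end gen

section norm
variable {X : Type*} {Q : Type*} [MulAction (FreeGroup X) Q] {Y : Type*} [DecidableEq X]
  [DecidableEq Y]

theorem norm_Ph_mk (φ : X → Q → FreeGroup Y) (L : ℕ) (hφ : ∀ s x, (φ s x).norm ≤ L)
    (l : List (X × Bool)) : ∀ x, (Ph φ (FreeGroup.mk l) x).norm ≤ L * l.length := by
  induction l with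
  | nil => intro x; rw [← FreeGroup.one_eq_mk, Ph_one]; simp
  | cons a l ih =>
    intro x
    have h1 : (FreeGroup.mk (a :: l) : FreeGroup X) = FreeGroup.mk [a] * FreeGroup.mk l := by
      rw [FreeGroup.mul_mk]; rfl
    rw [h1, Ph_mul]
    refine (FreeGroup.norm_mul_le _ _).trans ?_
    have h2 : ∀ y, (Ph φ (FreeGroup.mk [a]) y).norm ≤ L := by
      intro y
      obtain ⟨s, b⟩ := a
      cases b with
      | true => 
        have : (FreeGroup.mk [(s, true)] : FreeGroup X) = FreeGroup.of s := rfl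
        rw [this, Ph_of]; exact hφ s y
      | false =>
        have : (FreeGroup.mk [(s, false)] : FreeGroup X) = (FreeGroup.of s)⁻¹ := rfl
        rw [this, Ph_inv, FreeGroup.norm_inv_eq, Ph_of]; exact hφ s _
    have h3 := ih x
    have h4 := h2 (FreeGroup.mk l • x)
    rw [List.length_cons]
    nlinarith

theorem norm_Ph_le (φ : X → Q → FreeGroup Y) (L : ℕ) (hφ : ∀ s x, (φ s x).norm ≤ L)
    (w : FreeGroup X) (x : Q) : (Ph φ w x).norm ≤ L * w.norm := by
  have h := norm_Ph_mk φ L hφ w.toWord x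
  rwa [FreeGroup.mk_toWord] at h

end norm

end H749.Box
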