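import Pool.Agent.H749R3.Family

set_option autoImplicit false

/-! Counting normal subgroups of index `a * ℓ`: group theory part. -/

namespace H749.Box

/-- the structure used for counting -/
structure Dat {F : Type*} [Group F] (ℓ : ℕ) (N P : Subgroup F) (κ ψ : F → ZMod ℓ) : Prop where
  le : N ≤ P
  add : ∀ x ∈ P, ∀ y ∈ P, κ (x * y) = κ x + κ y
  ker : ∀ x ∈ P, κ x = 0 ↔ x ∈ N
  ne : ∃ x ∈ P, κ x ≠ 0
  conj : ∀ x, ∀ y ∈ P, κ (x * y * x⁻¹) = ψ x * κ y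
  mul : ∀ x y, ψ (x * y) = ψ x * ψ y
  one : ∀ x ∈ P, ψ x = 1

theorem sylow_normal {Q : Type*} [Group Q] {a ℓ : ℕ} [Fact ℓ.Prime] (ha : 0 < a) (hal : a < ℓ)
    (hQ : Nat.card Q = a * ℓ) : ∃ P : Subgroup Q, P.Normal ∧ Nat.card P = ℓ ∧ P.index = a := by
  have hℓ : ℓ.Prime := Fact.out
  have hfin : Finite Q := Nat.finite_of_card_ne_zero (by
    rw [hQ]; exact Nat.mul_ne_zero ha.ne' hℓ.ne_zero)
  let P : Sylow ℓ Q := default
  have h1 : Nat.card P = ℓ := by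
    rw [Sylow.card_eq_multiplicity, hQ, Nat.factorization_mul ha.ne' hℓ.ne_zero]
    have h2 : a.factorization ℓ = 0 := by
      apply Nat.factorization_eq_zero_of_not_dvd
      exact Nat.not_dvd_of_pos_of_lt ha hal
    simp [h2, hℓ.factorization_self]
  have h2 : P.index = a := by
    have h3 := Subgroup.card_mul_index (P : Subgroup Q)
    have h1' : Nat.card (P : Subgroup Q) = ℓ := h1
    rw [h1', hQ, mul_comm a] at h3
    exact Nat.eq_of_mul_eq_mul_left hℓ.pos h3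
  have h4 : Nat.card (Sylow ℓ Q) ∣ a := by
    have := Sylow.card_dvd_index P
    rwa [h2] at this
  have h5 : Nat.card (Sylow ℓ Q) ≡ 1 [MOD ℓ] := card_sylow_modEq_one ℓ Q
  have h6 : Nat.card (Sylow ℓ Q) ≤ a := Nat.le_of_dvd ha h4
  have h7 : Nat.card (Sylow ℓ Q) = 1 := by
    have := Nat.ModEq.eq_of_lt_of_lt h5 (h6.trans_lt hal) hℓ.one_lt
    exact this
  have h8 : Subsingleton (Sylow ℓ Q) := (Nat.card_eq_one_iff_unique.1 h7).1
  exact ⟨P, Sylow.normal_of_subsingleton P, h1, h2⟩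

theorem dat_quot {Q : Type*} [Group Q] {ℓ : ℕ} [Fact ℓ.Prime] (P : Subgroup Q) [P.Normal]
    (hP : Nat.card P = ℓ) : ∃ κ ψ : Q → ZMod ℓ, Dat ℓ ⊥ P κ ψ := by
  classical
  have hℓ : ℓ.Prime := Fact.out
  let θ : P ≃* Multiplicative (ZMod ℓ) := mulEquivOfPrimeCardEq hP (by
    rw [Nat.card_congr Multiplicative.toAdd, Nat.card_zmod])
  let κ : Q → ZMod ℓ := fun x => if h : x ∈ P then Multiplicative.toAdd (θ ⟨x, h⟩) else 0
  have hκ : ∀ x (h : x ∈ P), κ x = Multiplicative.toAdd (θ ⟨x, h⟩) := fun x h => dif_pos h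
  have hadd : ∀ x ∈ P, ∀ y ∈ P, κ (x * y) = κ x + κ y := by
    intro x hx y hy
    rw [hκ x hx, hκ y hy, hκ _ (P.mul_mem hx hy), ← toAdd_mul, ← map_mul]
    rfl
  have hone : κ 1 = 0 := by
    have := hadd 1 P.one_mem 1 P.one_mem
    rw [mul_one] at this
    exact left_eq_add.mp this
  have hpow : ∀ x ∈ P, ∀ k : ℕ, κ (x ^ k) = k * κ x := by
    intro x hx k
    induction k with
    | zero => rw [pow_zero, hone]; simp
    | succ k ih => rw [pow_succ, hadd _ (P.pow_mem hx k) _ hx, ih]; push_cast; ring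
  have hker : ∀ x ∈ P, κ x = 0 ↔ x = 1 := by
    intro x hx
    rw [hκ x hx]
    constructor
    · intro h
      have h1 : θ ⟨x, hx⟩ = 1 := h
      have h2 := (map_eq_one_iff θ θ.injective).1 h1
      exact congrArg Subtype.val h2
    · rintro rfl
      have h1 : θ ⟨1, hx⟩ = 1 := map_one θ
      rw [h1]; rfl
  let g₀ : P := θ.symm (Multiplicative.ofAdd 1)
  have hg₀ : κ g₀.1 = 1 := by
    rw [hκ g₀.1 g₀.2]
    show Multiplicative.toAdd (θ g₀) = 1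
    simp [g₀]
  have hgen : ∀ y ∈ P, y = g₀.1 ^ (κ y).val := by
    intro y hy
    have h1 : y * (g₀.1 ^ (κ y).val)⁻¹ = 1 := by
      rw [← hker _ (P.mul_mem hy (P.inv_mem (P.pow_mem g₀.2 _)))]
      have h2 : κ (y * (g₀.1 ^ (κ y).val)⁻¹) + κ (g₀.1 ^ (κ y).val) = κ y := by
        rw [← hadd _ (P.mul_mem hy (P.inv_mem (P.pow_mem g₀.2 _))) _ (P.pow_mem g₀.2 _)]
        rw [inv_mul_cancel_right]
      rw [hpow _ g₀.2, hg₀, mul_one, ZMod.natCast_val, ZMod.cast_id', id_eq] at h2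
      exact add_eq_right.mp h2
    exact mul_inv_eq_one.1 h1
  let ψ : Q → ZMod ℓ := fun x => κ (x * g₀.1 * x⁻¹)
  have hPn : ∀ x, ∀ y ∈ P, x * y * x⁻¹ ∈ P := fun x y hy => ‹P.Normal›.conj_mem y hy x
  have hconj : ∀ x, ∀ y ∈ P, κ (x * y * x⁻¹) = ψ x * κ y := by
    intro x y hy
    have h1 : x * y * x⁻¹ = (x * g₀.1 * x⁻¹) ^ (κ y).val := by
      conv_lhs => rw [hgen y hy]
      rw [conj_pow]
    rw [h1, hpow _ (hPn x _ g₀.2), ZMod.natCast_val, ZMod.cast_id', id_eq, mul_comm]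
  refine ⟨κ, ψ, bot_le, hadd, ?_, ⟨g₀.1, g₀.2, ?_⟩, hconj, ?_, ?_⟩
  · intro x hx
    rw [hker x hx, Subgroup.mem_bot]
  · rw [hg₀]; exact one_ne_zero
  · intro x y
    show κ (x * y * g₀.1 * (x * y)⁻¹) = ψ x * κ (y * g₀.1 * y⁻¹)
    rw [← hconj x _ (hPn y _ g₀.2)]
    congr 1; group
  · intro x hx
    show κ (x * g₀.1 * x⁻¹) = 1
    rw [hadd _ (P.mul_mem hx g₀.2) _ (P.inv_mem hx), hadd _ hx _ g₀.2, hg₀]
    have h2 : κ x + κ x⁻¹ = 0 := by
      rw [← hadd _ hx _ (P.inv_mem hx), mul_inv_cancel, hone]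
    have h3 : κ x + 1 + κ x⁻¹ = (κ x + κ x⁻¹) + 1 := by ring
    rw [h3, h2, zero_add]

theorem dat_exists {F : Type*} [Group F] {a ℓ : ℕ} [Fact ℓ.Prime] (ha : 0 < a) (hal : a < ℓ)
    (N : Subgroup F) [N.Normal] (hN : N.index = a * ℓ) :
    ∃ (P : Subgroup F) (κ ψ : F → ZMod ℓ), P.Normal ∧ P.index = a ∧ Dat ℓ N P κ ψ := by
  obtain ⟨P, hP1, hP2, hP3⟩ := sylow_normal (Q := F ⧸ N) ha hal hN
  obtain ⟨κ, ψ, h⟩ := dat_quot P hP2
  let π := QuotientGroup.mk' N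
  have hπ : Function.Surjective π := QuotientGroup.mk'_surjective N
  refine ⟨P.comap π, fun x => κ (π x), fun x => ψ (π x), inferInstance, ?_, ?_⟩
  · rw [Subgroup.index_comap_of_surjective P hπ, hP3]
  · have hker : ∀ x, π x = 1 ↔ x ∈ N := fun x => QuotientGroup.eq_one_iff x
    refine ⟨?_, ?_, ?_, ?_, ?_, ?_, ?_⟩
    · intro x hx
      rw [Subgroup.mem_comap, (hker x).2 hx]
      exact P.one_mem
    · intro x hx y hy
      show κ (π (x * y)) = _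
      rw [map_mul]; exact h.add _ hx _ hy
    · intro x hx
      show κ (π x) = 0 ↔ _
      rw [h.ker _ hx, Subgroup.mem_bot, hker]
    · obtain ⟨y, hy1, hy2⟩ := h.ne
      obtain ⟨x, rfl⟩ := hπ y
      exact ⟨x, hy1, hy2⟩
    · intro x y hy
      show κ (π (x * y * x⁻¹)) = ψ (π x) * κ (π y)
      rw [map_mul, map_mul, map_inv]; exact h.conj _ _ hy
    · intro x y
      show ψ (π (x * y)) = _
      rw [map_mul]; exact h.mul _ _
    · intro x hx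
      exact h.one _ hx

/-- extension of the eigen-homomorphism to a crossed homomorphism on the whole group -/
theorem crossed_exists {F : Type*} [Group F] {ℓ : ℕ} {N P : Subgroup F} [P.Normal]
    (hPi : P.index ≠ 0) {κ ψ : F → ZMod ℓ} (h : Dat ℓ N P κ ψ) :
    ∃ Z : F → ZMod ℓ, (∀ x y, Z (x * y) = Z x + ψ x * Z y) ∧
      ∀ x ∈ P, Z x = (P.index : ZMod ℓ) * κ x := by
  classical
  have hfin : Finite (F ⧸ P) := Nat.finite_of_card_ne_zero hPi
  have := Fintype.ofFinite (F ⧸ P)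
  let r : F ⧸ P → F := Quotient.out
  have hr : ∀ c, ((r c : F) : F ⧸ P) = c := fun c => Quotient.out_eq c
  have hr2 : ∀ x : F, (r (x : F ⧸ P))⁻¹ * x ∈ P := by
    intro x
    rw [← QuotientGroup.eq, hr]
  have hψ1 : ψ 1 = 1 := h.one 1 P.one_mem
  have hψP : ∀ g, ∀ ν ∈ P, ψ (g * ν) = ψ g := by
    intro g ν hν
    rw [h.mul, h.one ν hν, mul_one]
  let Z₀ : F → ZMod ℓ := fun x => ψ x * κ ((r (x : F ⧸ P))⁻¹ * x)
  have hZ₀ : ∀ g, ∀ ν ∈ P, Z₀ (g * ν) = Z₀ g + ψ g * κ ν := by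
    intro g ν hν
    show ψ (g * ν) * κ ((r ((g * ν : F) : F ⧸ P))⁻¹ * (g * ν)) = ψ g * κ ((r (g : F ⧸ P))⁻¹ * g) + ψ g * κ ν
    have h1 : ((g * ν : F) : F ⧸ P) = (g : F ⧸ P) := by
      rw [QuotientGroup.eq]
      have : (g * ν)⁻¹ * g = ν⁻¹ := by group
      rw [this]; exact P.inv_mem hν
    rw [h1, hψP g ν hν, ← mul_assoc, h.add _ (hr2 g) _ hν, mul_add]
  let E : F → F → ZMod ℓ := fun x g => Z₀ (x * g) - ψ x * Z₀ g
  have hE : ∀ x g, ∀ ν ∈ P, E x (g * ν) = E x g := by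
    intro x g ν hν
    show Z₀ (x * (g * ν)) - ψ x * Z₀ (g * ν) = Z₀ (x * g) - ψ x * Z₀ g
    rw [← mul_assoc, hZ₀ _ _ hν, hZ₀ _ _ hν, h.mul]; ring
  have hE' : ∀ x g g' : F, ((g : F) : F ⧸ P) = ((g' : F) : F ⧸ P) → E x g = E x g' := by
    intro x g g' hg
    rw [QuotientGroup.eq] at hg
    have h1 : g' = g * (g⁻¹ * g') := by group
    rw [h1, hE x g _ hg]
  refine ⟨fun x => ∑ c : F ⧸ P, E x (r c), ?_, ?_⟩
  · intro x y
    show ∑ c : F ⧸ P, E (x * y) (r c) = (∑ c : F ⧸ P, E x (r c)) + ψ x * ∑ c : F ⧸ P, E y (r c)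
    have h1 : ∑ c : F ⧸ P, E x (r c) = ∑ c : F ⧸ P, E x (y * r c) := by
      rw [← Equiv.sum_comp (MulAction.toPerm y : Equiv.Perm (F ⧸ P)) (fun c => E x (r c))]
      apply Finset.sum_congr rfl
      intro c _
      apply hE'
      rw [hr]
      show y • c = _
      rw [← smul_mk, hr]
    rw [h1, Finset.mul_sum, ← Finset.sum_add_distrib]
    apply Finset.sum_congr rfl
    intro c _
    show Z₀ (x * y * r c) - ψ (x * y) * Z₀ (r c) = (Z₀ (x * (y * r c)) - ψ x * Z₀ (y * r c)) +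
      ψ x * (Z₀ (y * r c) - ψ y * Z₀ (r c))
    rw [h.mul, mul_assoc x y]; ring
  · intro x hx
    show ∑ c : F ⧸ P, E x (r c) = _
    have h1 : ∀ g, E x g = κ x := by
      intro g
      have h2 : g⁻¹ * x * g⁻¹⁻¹ ∈ P := ‹P.Normal›.conj_mem x hx g⁻¹
      have h3 : x * g = g * (g⁻¹ * x * g⁻¹⁻¹) := by group
      show Z₀ (x * g) - ψ x * Z₀ g = κ x
      rw [h3, hZ₀ g _ h2, h.one x hx, h.conj _ _ hx, ← mul_assoc, ← h.mul, mul_inv_cancel, hψ1]
      ring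
    rw [Finset.sum_congr rfl (fun c _ => h1 (r c)), Finset.sum_const, Finset.card_univ,
      nsmul_eq_mul, ← Nat.card_eq_fintype_card]
    rfl

end H749.Box
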