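import Pool.Agent.H749R3.Count1

set_option autoImplicit false

/-! Counting normal subgroups of index `a * ℓ` in a free group. -/

namespace H749.Box

theorem exists_dec {n : ℕ} (N : Subgroup (FreeGroup (Fin n))) (hN : N.index ≠ 0) :
    ∃ (σ : Fin n → Equiv.Perm (Fin N.index)) (p : Fin N.index),
      ∀ w, w ∈ N ↔ FreeGroup.lift σ w p = p := by
  have hfin : Finite (FreeGroup (Fin n) ⧸ N) := Nat.finite_of_card_ne_zero hN
  let e : (FreeGroup (Fin n) ⧸ N) ≃ Fin N.index := Finite.equivFinOfCardEq rfl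
  let τ : FreeGroup (Fin n) →* Equiv.Perm (FreeGroup (Fin n) ⧸ N) := MulAction.toPermHom _ _
  let σ : Fin n → Equiv.Perm (Fin N.index) := fun i => e.permCongrHom (τ (FreeGroup.of i))
  have hσ : FreeGroup.lift σ = e.permCongrHom.toMonoidHom.comp τ := by
    apply FreeGroup.ext_hom
    intro i
    simp [σ]
  refine ⟨σ, e (x0 N), fun w => ?_⟩
  have h1 : FreeGroup.lift σ w (e (x0 N)) = e (w • x0 N) := by
    rw [hσ]
    show e.permCongrHom (τ w) (e (x0 N)) = _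
    simp [τ, Equiv.permCongrHom]
  rw [h1]
  constructor
  · intro hw
    rw [smul_x0_mem N hw]
  · intro h
    have h2 := e.injective h
    rw [smul_x0, x0, QuotientGroup.eq, mul_one] at h2
    exact (N.inv_mem_iff).1 h2

theorem finite_index_le (n A : ℕ) :
    {N : Subgroup (FreeGroup (Fin n)) | N.index ≠ 0 ∧ N.index ≤ A}.Finite := by
  classical
  let dec : (Σ a : Fin (A + 1), (Fin n → Equiv.Perm (Fin a.1)) × Fin a.1) →
      Subgroup (FreeGroup (Fin n)) := fun t =>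
    (MulAction.stabilizer (Equiv.Perm (Fin t.1.1)) t.2.2).comap (FreeGroup.lift t.2.1)
  apply (Set.finite_range dec).subset
  rintro N ⟨hN1, hN2⟩
  obtain ⟨σ, p, h⟩ := exists_dec N hN1
  refine ⟨⟨⟨N.index, by omega⟩, σ, p⟩, ?_⟩
  ext w
  rw [h w]
  rfl

/-- The relation between a subgroup and its code. -/
def Codes {n : ℕ} (ℓ : ℕ) (P : Subgroup (FreeGroup (Fin n))) (ζ z : Fin n → ZMod ℓ)
    (N : Subgroup (FreeGroup (Fin n))) : Prop :=
  ∃ (ψ : FreeGroup (Fin n) →* ZMod ℓ) (Z : FreeGroup (Fin n) → ZMod ℓ),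
    (∀ x y, Z (x * y) = Z x + ψ x * Z y) ∧ (∀ i, ψ (FreeGroup.of i) = ζ i) ∧
    (∀ i, Z (FreeGroup.of i) = z i) ∧ ∀ w, w ∈ N ↔ w ∈ P ∧ Z w = 0

theorem crossed_unique {n ℓ : ℕ} (ψ : FreeGroup (Fin n) →* ZMod ℓ)
    (Z Z' : FreeGroup (Fin n) → ZMod ℓ)
    (h : ∀ x y, Z (x * y) = Z x + ψ x * Z y) (h' : ∀ x y, Z' (x * y) = Z' x + ψ x * Z' y)
    (he : ∀ i, Z (FreeGroup.of i) = Z' (FreeGroup.of i)) : ∀ w, Z w = Z' w := by
  have one : ∀ (Z : FreeGroup (Fin n) → ZMod ℓ), (∀ x y, Z (x * y) = Z x + ψ x * Z y) →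
      Z 1 = 0 := by
    intro Z h
    have h1 := h 1 1
    rw [mul_one, map_one, one_mul] at h1
    exact left_eq_add.mp h1
  have inv : ∀ (Z : FreeGroup (Fin n) → ZMod ℓ), (∀ x y, Z (x * y) = Z x + ψ x * Z y) →
      ∀ x, Z x⁻¹ = - (ψ x⁻¹ * Z x) := by
    intro Z h x
    have h1 := h x⁻¹ x
    rw [inv_mul_cancel, one Z h] at h1
    exact eq_neg_of_add_eq_zero_left h1.symm
  intro w
  induction w using FreeGroup.induction_on with
  | C1 => rw [one Z h, one Z' h']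
  | of s => exact he s
  | inv_of s _ => rw [inv Z h, inv Z' h', he]
  | mul a b ha hb => rw [h, h', ha, hb]

theorem codes_unique {n ℓ : ℕ} {P : Subgroup (FreeGroup (Fin n))} {ζ z : Fin n → ZMod ℓ}
    {N N' : Subgroup (FreeGroup (Fin n))} (h : Codes ℓ P ζ z N) (h' : Codes ℓ P ζ z N') :
    N = N' := by
  obtain ⟨ψ, Z, h1, h2, h3, h4⟩ := h
  obtain ⟨ψ', Z', h1', h2', h3', h4'⟩ := h'
  have e1 : ψ = ψ' := FreeGroup.ext_hom ψ ψ' (fun i => by rw [h2, h2'])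
  subst e1
  have e2 := crossed_unique ψ Z Z' h1 h1' (fun i => by rw [h3, h3'])
  ext w
  rw [h4, h4', e2]

theorem codes_exist {n A ℓ a : ℕ} [Fact ℓ.Prime] (ha : 0 < a) (haA : a ≤ A) (hA : A < ℓ)
    (N : Subgroup (FreeGroup (Fin n))) [N.Normal] (hN : N.index = a * ℓ) :
    ∃ (P : Subgroup (FreeGroup (Fin n))) (ζ z : Fin n → ZMod ℓ),
      (P.index ≠ 0 ∧ P.index ≤ A) ∧ (∀ i, ζ i ^ A.factorial = 1) ∧ z ≠ 0 ∧
      ∀ u : (ZMod ℓ)ˣ, Codes ℓ P ζ (fun i => u * z i) N := by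
  obtain ⟨P, κ, ψ, hP1, hP2, h⟩ := dat_exists ha (haA.trans_lt hA) N hN
  have hP0 : P.index ≠ 0 := by rw [hP2]; exact ha.ne'
  obtain ⟨Z, hZ1, hZ2⟩ := crossed_exists hP0 h
  have hψ1 : ψ 1 = 1 := h.one 1 P.one_mem
  let ψ' : FreeGroup (Fin n) →* ZMod ℓ :=
    { toFun := ψ
      map_one' := hψ1
      map_mul' := h.mul }
  have ha0 : (P.index : ZMod ℓ) ≠ 0 := by
    rw [hP2]
    intro h1
    rw [ZMod.natCast_eq_zero_iff] at h1
    exact Nat.not_dvd_of_pos_of_lt ha (haA.trans_lt hA) h1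
  refine ⟨P, fun i => ψ (FreeGroup.of i), fun i => Z (FreeGroup.of i), ⟨hP0, by rw [hP2]; exact haA⟩,
    ?_, ?_, ?_⟩
  · intro i
    have h1 : ψ' ((FreeGroup.of i) ^ P.index) = 1 := h.one _ (Subgroup.pow_index_mem P _)
    have h2 : P.index ∣ A.factorial := by
      rw [hP2]; exact Nat.dvd_factorial ha haA
    obtain ⟨c, hc⟩ := h2
    show (ψ' (FreeGroup.of i)) ^ A.factorial = 1
    rw [hc, pow_mul, ← map_pow, h1, one_pow]
  · intro h0
    have h1 : ∀ w, Z w = 0 := by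
      refine crossed_unique ψ' Z (fun _ => 0) hZ1 (fun x y => by simp) ?_
      intro i
      exact congrFun h0 i
    obtain ⟨x, hx1, hx2⟩ := h.ne
    have h2 := hZ2 x hx1
    rw [h1] at h2
    rcases mul_eq_zero.1 h2.symm with h3 | h3
    · exact ha0 h3
    · exact hx2 h3
  · intro u
    refine ⟨ψ', fun w => u * Z w, ?_, fun i => rfl, fun i => rfl, ?_⟩
    · intro x y
      show (u : ZMod ℓ) * Z (x * y) = u * Z x + ψ x * (u * Z y)
      rw [hZ1]; ring
    · intro w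
      constructor
      · intro hw
        have hwP := h.le hw
        refine ⟨hwP, ?_⟩
        show (u : ZMod ℓ) * Z w = 0
        rw [hZ2 w hwP, (h.ker w hwP).2 hw]; simp
      · rintro ⟨hwP, hw⟩
        have h1 : (u : ZMod ℓ) * Z w = 0 := hw
        have h2 : Z w = 0 := by
          rcases mul_eq_zero.1 h1 with h3 | h3
          · exact absurd h3 u.ne_zero
          · exact h3
        rw [hZ2 w hwP] at h2
        rcases mul_eq_zero.1 h2 with h3 | h3
        · exact absurd h3 ha0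
        · exact (h.ker w hwP).1 h3

/-- the normal subgroups which are counted -/
def cnt (n A ℓ : ℕ) : Set (Subgroup (FreeGroup (Fin n))) :=
  {N | N.Normal ∧ ∃ a, 0 < a ∧ a ≤ A ∧ N.index = a * ℓ}

theorem roots_card (ℓ K : ℕ) [Fact ℓ.Prime] (hK : 0 < K) :
    Nat.card {t : ZMod ℓ // t ^ K = 1} ≤ K := by
  classical
  have h1 : Nat.card {t : ZMod ℓ // t ^ K = 1} = (Polynomial.nthRootsFinset K (1 : ZMod ℓ)).card :=
    Nat.subtype_card _ (fun x => Polynomial.mem_nthRootsFinset hK 1)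
  rw [h1, Polynomial.nthRootsFinset_def]
  exact (Multiset.toFinset_card_le _).trans (Polynomial.card_nthRoots _ _)

theorem count_le (n A : ℕ) : ∃ c : ℕ, ∀ ℓ : ℕ, ℓ.Prime → A < ℓ →
    (cnt n A ℓ).Finite ∧ (ℓ - 1) * Nat.card (cnt n A ℓ) ≤ c * ℓ ^ n := by
  classical
  let Sb := {N : Subgroup (FreeGroup (Fin n)) | N.index ≠ 0 ∧ N.index ≤ A}
  have hSb : Sb.Finite := finite_index_le n A
  refine ⟨Nat.card Sb * A.factorial ^ n, ?_⟩
  intro ℓ hℓ hA
  have hF : Fact ℓ.Prime := ⟨hℓ⟩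
  have hSbf : Finite Sb := hSb.to_subtype
  let T := Sb × (Fin n → {t : ZMod ℓ // t ^ A.factorial = 1}) × (Fin n → ZMod ℓ)
  have hex : ∀ N : cnt n A ℓ, ∃ (t : T), t.2.2 ≠ 0 ∧
      ∀ u : (ZMod ℓ)ˣ, Codes ℓ t.1.1 (fun i => (t.2.1 i).1) (fun i => u * t.2.2 i) N.1 := by
    rintro ⟨N, hN, a, ha1, ha2, ha3⟩
    obtain ⟨P, ζ, z, h1, h2, h3, h4⟩ := codes_exist ha1 ha2 hA N ha3
    exact ⟨⟨⟨P, h1⟩, fun i => ⟨ζ i, h2 i⟩, z⟩, h3, h4⟩
  choose t ht1 ht2 using hex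
  let g : cnt n A ℓ × (ZMod ℓ)ˣ → T := fun p =>
    ((t p.1).1, (t p.1).2.1, fun i => p.2 * (t p.1).2.2 i)
  have hg : Function.Injective g := by
    rintro ⟨N, u⟩ ⟨N', u'⟩ h
    have h1 : (t N).1 = (t N').1 := congrArg (fun x => x.1) h
    have h2 : (t N).2.1 = (t N').2.1 := congrArg (fun x => x.2.1) h
    have h3 : (fun i => (u : ZMod ℓ) * (t N).2.2 i) = (fun i => (u' : ZMod ℓ) * (t N').2.2 i) :=
      congrArg (fun x => x.2.2) h
    have h4 := ht2 N u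
    have h5 := ht2 N' u'
    rw [h1, h2, h3] at h4
    have h6 : N = N' := Subtype.ext (codes_unique h4 h5)
    subst h6
    have h7 : u = u' := by
      obtain ⟨i, hi⟩ := Function.ne_iff.1 (ht1 N)
      have h8 := congrFun h3 i
      exact Units.ext (mul_right_cancel₀ hi h8)
    rw [h7]
  have hTf : Finite T := inferInstance
  have hfin : Finite (cnt n A ℓ) :=
    Finite.of_injective (fun N => g (N, 1)) (fun N N' h => by
      have := hg h
      exact (Prod.ext_iff.1 this).1)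
  refine ⟨Set.toFinite _, ?_⟩
  have h1 := Nat.card_le_card_of_injective g hg
  rw [Nat.card_prod, Nat.card_prod, Nat.card_prod, Nat.card_fun, Nat.card_fun, Nat.card_fin,
    Nat.card_zmod] at h1
  have h2 : Nat.card (ZMod ℓ)ˣ = ℓ - 1 := by
    rw [Nat.card_eq_fintype_card, ZMod.card_units_eq_totient, Nat.totient_prime hℓ]
  rw [h2] at h1
  have h3 := Nat.pow_le_pow_left (roots_card ℓ A.factorial (Nat.factorial_pos A)) n
  calc (ℓ - 1) * Nat.card (cnt n A ℓ) = Nat.card (cnt n A ℓ) * (ℓ - 1) := mul_comm _ _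
    _ ≤ _ := h1
    _ ≤ Nat.card Sb * (A.factorial ^ n * ℓ ^ n) := by gcongr
    _ = _ := by ring

end H749.Box
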