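import Mathlib

set_option autoImplicit false

namespace Pool.Agent.H749R3

theorem sum_zmod (m : ℕ) [NeZero m] (F : ZMod m → ℤ) :
    ∑ p, F p = ∑ k ∈ Finset.range m, F (k : ZMod m) := by
  rw [← Fin.sum_univ_eq_sum_range (fun k => F (k : ZMod m)) m]
  symm
  refine Fintype.sum_bijective (fun i : Fin m => ((i : ℕ) : ZMod m)) ?_ _ _ (fun _ => rfl)
  constructor
  · intro a b hab
    have := (ZMod.natCast_eq_natCast_iff' _ _ _).1 hab
    rw [Nat.mod_eq_of_lt a.2, Nat.mod_eq_of_lt b.2] at this
    exact Fin.ext this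
  · intro b
    exact ⟨⟨b.val, ZMod.val_lt b⟩, by simp⟩

theorem sum_range_mul (t s : ℕ) (f : ℕ → ℤ) :
    ∑ k ∈ Finset.range (t * s), f k =
      ∑ i ∈ Finset.range t, ∑ l ∈ Finset.range s, f (i * s + l) := by
  induction t with
  | zero => simp
  | succ t ih =>
    rw [Nat.succ_mul, Finset.sum_range_add, ih, Finset.sum_range_succ]

theorem cyc (D σ : ℕ) (hσ : 1 ≤ σ) (m : ℕ) [NeZero m] (hm : m = (2 * D + 1) * σ)
    (W Vn : ZMod m → ℤ)
    (h1 : ∑ p, |W p - ∑ i ∈ Finset.range (2 * D + 1), Vn (p - ((i * σ : ℕ) : ZMod m))| ≤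
      2 * (D : ℤ) * D)
    (h2 : ∑ p, |W p - W (p - 1)| ≤ 2 * (D : ℤ)) :
    ∃ z : ℤ, |(σ : ℤ) * z - ∑ p, Vn p| ≤ 2 * (D : ℤ) * D := by
  classical
  set t := 2 * D + 1 with ht
  set Y : ZMod m → ℤ := fun p => ∑ i ∈ Finset.range t, Vn (p - ((i * σ : ℕ) : ZMod m)) with hY
  -- jumps
  set J : Finset (ZMod m) := Finset.univ.filter fun p => W p ≠ W (p - 1) with hJ
  have hJc : (J.card : ℤ) ≤ 2 * D := by
    calc (J.card : ℤ) = ∑ p ∈ J, (1 : ℤ) := by simp
      _ ≤ ∑ p ∈ J, |W p - W (p - 1)| := by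
          refine Finset.sum_le_sum ?_
          intro p hp
          have : W p - W (p - 1) ≠ 0 := by
            rw [hJ, Finset.mem_filter] at hp
            exact sub_ne_zero.2 hp.2
          exact Int.one_le_abs this
      _ ≤ ∑ p, |W p - W (p - 1)| :=
          Finset.sum_le_sum_of_subset_of_nonneg (Finset.subset_univ _) fun _ _ _ => abs_nonneg _
      _ ≤ _ := h2
  -- a good block
  have hgood : ∃ i < t, ∀ l, 1 ≤ l → l < σ → ((i * σ + l : ℕ) : ZMod m) ∉ J := by
    by_contra hcon
    push Not at hcon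
    choose! l hl1 hl2 hl3 using hcon
    have hinj : Set.InjOn (fun i : ℕ => ((i * σ + l i : ℕ) : ZMod m)) (Finset.range t) := by
      intro a ha b hb hab
      simp only [Finset.coe_range, Set.mem_Iio] at ha hb
      have := (ZMod.natCast_eq_natCast_iff' _ _ _).1 hab
      have ea : a * σ + l a < m := by
        rw [hm]
        calc a * σ + l a < a * σ + σ := by have := hl2 a ha; omega
          _ = (a + 1) * σ := by ring
          _ ≤ t * σ := Nat.mul_le_mul_right _ ha
      have eb : b * σ + l b < m := by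
        rw [hm]
        calc b * σ + l b < b * σ + σ := by have := hl2 b hb; omega
          _ = (b + 1) * σ := by ring
          _ ≤ t * σ := Nat.mul_le_mul_right _ hb
      rw [Nat.mod_eq_of_lt ea, Nat.mod_eq_of_lt eb] at this
      have qa : (a * σ + l a) / σ = a := by
        rw [Nat.add_comm, Nat.add_mul_div_right _ _ (by omega), Nat.div_eq_of_lt (hl2 a ha)]; omega
      have qb : (b * σ + l b) / σ = b := by
        rw [Nat.add_comm, Nat.add_mul_div_right _ _ (by omega), Nat.div_eq_of_lt (hl2 b hb)]; omega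
      rw [← qa, ← qb, this]
    have : (Finset.range t).card ≤ J.card := by
      refine Finset.card_le_card_of_injOn _ ?_ hinj
      intro i hi
      exact hl3 i (by simpa using hi)
    rw [Finset.card_range] at this
    omega
  obtain ⟨i, hi, hblock⟩ := hgood
  have hconst : ∀ l, l < σ → W ((i * σ + l : ℕ) : ZMod m) = W ((i * σ : ℕ) : ZMod m) := by
    intro l
    induction l with
    | zero => intro _; simp
    | succ l ih =>
      intro hl
      have hn := hblock (l + 1) (by omega) hl
      have : W ((i * σ + (l + 1) : ℕ) : ZMod m) = W (((i * σ + (l + 1) : ℕ) : ZMod m) - 1) := by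
        by_contra hne
        exact hn (by rw [hJ, Finset.mem_filter]; exact ⟨Finset.mem_univ _, hne⟩)
      rw [this, ← ih (by omega)]
      congr 1
      push_cast
      ring
  -- periodicity
  have hper : ∀ p, Y (p + (σ : ZMod m)) = Y p := by
    intro p
    rw [hY]
    simp only
    rw [ht, Finset.sum_range_succ', Finset.sum_range_succ (n := 2 * D)]
    congr 1
    · refine Finset.sum_congr rfl ?_
      intro k _
      congr 1
      push_cast
      ring
    · congr 1
      have : ((m : ℕ) : ZMod m) = 0 := ZMod.natCast_self m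
      have h3 : (((2 * D + 1) * σ : ℕ) : ZMod m) = 0 := by
        rw [← hm]; exact this
      push_cast at h3 ⊢
      linear_combination h3
  have hper' : ∀ (k : ℕ) p, Y (p + ((k * σ : ℕ) : ZMod m)) = Y p := by
    intro k
    induction k with
    | zero => intro p; simp
    | succ k ih =>
      intro p
      rw [← ih p, ← hper (p + ((k * σ : ℕ) : ZMod m))]
      congr 1
      push_cast
      ring
  have hblk : ∀ k : ℕ, ∑ l ∈ Finset.range σ, Y ((k * σ + l : ℕ) : ZMod m) =
      ∑ l ∈ Finset.range σ, Y ((l : ℕ) : ZMod m) := by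
    intro k
    refine Finset.sum_congr rfl ?_
    intro l _
    rw [← hper' k ((l : ℕ) : ZMod m)]
    congr 1
    push_cast
    ring
  have hYsum : ∑ p, Y p = t * ∑ p, Vn p := by
    rw [hY]
    simp only
    rw [Finset.sum_comm]
    have : ∀ k ∈ Finset.range t, ∑ p, Vn (p - ((k * σ : ℕ) : ZMod m)) = ∑ p, Vn p := by
      intro k _
      exact Fintype.sum_equiv (Equiv.subRight ((k * σ : ℕ) : ZMod m)) _ _ (fun _ => rfl)
    rw [Finset.sum_congr rfl this]
    simp
  have hYsum2 : ∑ p, Y p = t * ∑ l ∈ Finset.range σ, Y ((l : ℕ) : ZMod m) := by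
    rw [sum_zmod]
    have : m = t * σ := hm
    conv_lhs => rw [show Finset.range m = Finset.range (t * σ) by rw [← this]]
    rw [sum_range_mul t σ (fun k => Y ((k : ℕ) : ZMod m)), Finset.sum_congr rfl fun k _ => hblk k]
    simp
  have hone : ∑ l ∈ Finset.range σ, Y ((i * σ + l : ℕ) : ZMod m) = ∑ p, Vn p := by
    rw [hblk]
    have ht0 : (t : ℤ) ≠ 0 := by rw [ht]; positivity
    exact mul_left_cancel₀ ht0 (by rw [← hYsum2, hYsum])
  refine ⟨W ((i * σ : ℕ) : ZMod m), ?_⟩
  calc |(σ : ℤ) * W ((i * σ : ℕ) : ZMod m) - ∑ p, Vn p|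
      = |∑ l ∈ Finset.range σ, (W ((i * σ + l : ℕ) : ZMod m) - Y ((i * σ + l : ℕ) : ZMod m))| := by
        rw [Finset.sum_sub_distrib, hone,
          Finset.sum_congr rfl fun l hl => hconst l (by simpa using hl)]
        simp
    _ ≤ ∑ l ∈ Finset.range σ, |W ((i * σ + l : ℕ) : ZMod m) - Y ((i * σ + l : ℕ) : ZMod m)| :=
        Finset.abs_sum_le_sum_abs _ _
    _ ≤ ∑ k ∈ Finset.range t, ∑ l ∈ Finset.range σ,
          |W ((k * σ + l : ℕ) : ZMod m) - Y ((k * σ + l : ℕ) : ZMod m)| := by
        refine Finset.single_le_sum (f := fun k => ∑ l ∈ Finset.range σ,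
          |W ((k * σ + l : ℕ) : ZMod m) - Y ((k * σ + l : ℕ) : ZMod m)|) ?_ (by simpa using hi)
        intro k _
        exact Finset.sum_nonneg fun _ _ => abs_nonneg _
    _ = ∑ p, |W p - Y p| := by
        rw [sum_zmod m (fun p => |W p - Y p|)]
        have : m = t * σ := hm
        conv_rhs => rw [show Finset.range m = Finset.range (t * σ) by rw [← this]]
        rw [sum_range_mul t σ (fun k => |W ((k : ℕ) : ZMod m) - Y ((k : ℕ) : ZMod m)|)]
    _ ≤ _ := h1

end Pool.Agent.H749R3
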