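import Pool.Agent.H749R3.IndexRel

set_option autoImplicit false

/-! Many normal subgroups of index `e * ℓ` with large girth. -/

namespace H749.Box

section girth
variable {m : ℕ}

/-- balls in free groups -/
abbrev Bl (m R : ℕ) : Type := {u : FreeGroup (Fin m) // u.norm ≤ R}

theorem Bl_finite (m R : ℕ) : Finite (Bl m R) := (ball_finite m R).to_subtype

/-- Left multiplication by a generator as a bijection between two subsets of the ball. -/
def pact (R : ℕ) (x : Fin m) :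
    {u : Bl m R // (FreeGroup.of x * u.1).norm ≤ R} ≃
      {u : Bl m R // ((FreeGroup.of x)⁻¹ * u.1).norm ≤ R} where
  toFun := fun u => ⟨⟨FreeGroup.of x * u.1.1, u.2⟩, by
    rw [inv_mul_cancel_left]; exact u.1.2⟩
  invFun := fun u => ⟨⟨(FreeGroup.of x)⁻¹ * u.1.1, u.2⟩, by
    rw [mul_inv_cancel_left]; exact u.1.2⟩
  left_inv := fun u => by
    apply Subtype.ext; apply Subtype.ext
    exact inv_mul_cancel_left _ _
  right_inv := fun u => by
    apply Subtype.ext; apply Subtype.ext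
    exact mul_inv_cancel_left _ _

open Classical in
/-- The permutation by which a generator acts on the ball. -/
noncomputable def act1 (R : ℕ) (x : Fin m) : Equiv.Perm (Bl m R) :=
  haveI := Bl_finite m R
  haveI := Fintype.ofFinite (Bl m R)
  (pact R x).extendSubtype

theorem act1_apply (R : ℕ) (x : Fin m) (u : Bl m R)
    (h : (FreeGroup.of x * u.1).norm ≤ R) : act1 R x u = ⟨FreeGroup.of x * u.1, h⟩ := by
  classical
  have := Bl_finite m R
  have := Fintype.ofFinite (Bl m R)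
  exact Equiv.extendSubtype_apply_of_mem (pact R x) u h

theorem norm_mk_le (l : List (Fin m × Bool)) : (FreeGroup.mk l).norm ≤ l.length :=
  FreeGroup.norm_mk_le

theorem one_norm_le (R : ℕ) : (1 : FreeGroup (Fin m)).norm ≤ R := by
  rw [FreeGroup.norm_one]; exact Nat.zero_le _

theorem act_list (R : ℕ) : ∀ (l : List (Fin m × Bool)) (_ : l.length ≤ R),
    (FreeGroup.lift (act1 (m := m) R) (FreeGroup.mk l) ⟨1, one_norm_le R⟩).1 =
      FreeGroup.mk l := by
  intro l
  induction l with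
  | nil =>
    intro h
    rw [← FreeGroup.one_eq_mk, map_one]
    rfl
  | cons a l ih =>
    intro h
    have h' : l.length ≤ R := by
      rw [List.length_cons] at h; omega
    obtain ⟨x, b⟩ := a
    have hmk : FreeGroup.mk ((x, b) :: l) = FreeGroup.mk [(x, b)] * FreeGroup.mk l := by
      rw [FreeGroup.mul_mk]; rfl
    have hmem : (FreeGroup.mk ((x, b) :: l)).norm ≤ R := (norm_mk_le _).trans h
    have hmem' : (FreeGroup.mk l).norm ≤ R := (norm_mk_le _).trans h'
    have ih2 : FreeGroup.lift (act1 (m := m) R) (FreeGroup.mk l) ⟨1, one_norm_le R⟩ =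
      ⟨FreeGroup.mk l, hmem'⟩ := Subtype.ext (ih h')
    rw [hmk, map_mul, Equiv.Perm.mul_apply, ih2]
    rw [hmk] at hmem
    cases b with
    | true =>
      have h1 : FreeGroup.mk [(x, true)] = FreeGroup.of x := rfl
      rw [h1] at hmem
      rw [h1, FreeGroup.lift_apply_of, act1_apply R x _ hmem]
    | false =>
      have h1 : FreeGroup.mk [(x, false)] = (FreeGroup.of x)⁻¹ := rfl
      rw [h1] at hmem
      rw [h1, map_inv, FreeGroup.lift_apply_of]
      have h2 : act1 R x ⟨(FreeGroup.of x)⁻¹ * FreeGroup.mk l, hmem⟩ =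
          ⟨FreeGroup.mk l, hmem'⟩ := by
        rw [act1_apply R x _ (by rw [mul_inv_cancel_left]; exact hmem')]
        apply Subtype.ext
        exact mul_inv_cancel_left _ _
      rw [← h2, ← Equiv.Perm.mul_apply, inv_mul_cancel]
      rfl

theorem exists_girth (m R : ℕ) : ∃ M : Subgroup (FreeGroup (Fin m)), M.Normal ∧ M.index ≠ 0 ∧
    ∀ w ∈ M, w.norm ≤ R → w = 1 := by
  classical
  let f := FreeGroup.lift (act1 (m := m) R)
  refine ⟨f.ker, inferInstance, ?_, ?_⟩
  · rw [Subgroup.index_ker]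
    have := Bl_finite m R
    exact Nat.card_pos.ne'
  · intro w hw hR
    have h1 := act_list R w.toWord hR
    rw [FreeGroup.mk_toWord] at h1
    have h2 : f w = 1 := hw
    change (f w ⟨1, one_norm_le R⟩).1 = w at h1
    rw [h2] at h1
    exact h1.symm

end girth

section fam
variable {k : ℕ} (ℓ : ℕ)

/-- the character -/
def chz (z : Fin k → ZMod ℓ) : FreeGroup (Fin (k + 1)) →* Multiplicative (ZMod ℓ) :=
  FreeGroup.lift (fun i => Multiplicative.ofAdd ((Fin.cons 1 z : Fin (k + 1) → ZMod ℓ) i))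

theorem chz_zero (z : Fin k → ZMod ℓ) :
    chz ℓ z (FreeGroup.of 0) = Multiplicative.ofAdd 1 := by
  simp [chz]

theorem chz_succ (z : Fin k → ZMod ℓ) (i : Fin k) :
    chz ℓ z (FreeGroup.of i.succ) = Multiplicative.ofAdd (z i) := by
  simp [chz]

theorem chz_surj [NeZero ℓ] (z : Fin k → ZMod ℓ) : Function.Surjective (chz ℓ z) := by
  intro a
  refine ⟨FreeGroup.of 0 ^ (Multiplicative.toAdd a).val, ?_⟩
  rw [map_pow, chz_zero, ← ofAdd_nsmul]
  simp

theorem chz_index [NeZero ℓ] (z : Fin k → ZMod ℓ) : (chz ℓ z).ker.index = ℓ := by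
  rw [Subgroup.index_ker, MonoidHom.range_eq_top.2 (chz_surj ℓ z)]
  rw [Nat.card_congr Subgroup.topEquiv.toEquiv, Nat.card_congr Multiplicative.toAdd,
    Nat.card_zmod]

theorem fam_index [NeZero ℓ] (M₀ : Subgroup (FreeGroup (Fin (k + 1)))) (h0 : M₀.index ≠ 0)
    (hc : Nat.Coprime M₀.index ℓ) (z : Fin k → ZMod ℓ) :
    (M₀ ⊓ (chz ℓ z).ker).index = M₀.index * ℓ := by
  have h1 : (M₀ ⊓ (chz ℓ z).ker).index ≤ M₀.index * (chz ℓ z).ker.index := Subgroup.index_inf_le
  rw [chz_index] at h1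
  have h2 : M₀.index ∣ (M₀ ⊓ (chz ℓ z).ker).index := Subgroup.index_dvd_of_le inf_le_left
  have h3 : ℓ ∣ (M₀ ⊓ (chz ℓ z).ker).index := by
    have := Subgroup.index_dvd_of_le (inf_le_right : M₀ ⊓ (chz ℓ z).ker ≤ (chz ℓ z).ker)
    rwa [chz_index] at this
  have h4 : M₀.index * ℓ ∣ (M₀ ⊓ (chz ℓ z).ker).index := hc.mul_dvd_of_dvd_of_dvd h2 h3
  have h5 : (M₀ ⊓ (chz ℓ z).ker).index ≠ 0 := by
    apply Subgroup.index_inf_ne_zero h0
    rw [chz_index]; exact NeZero.ne ℓ
  exact le_antisymm h1 (Nat.le_of_dvd (Nat.pos_of_ne_zero h5) h4)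

theorem fam_inj [Fact ℓ.Prime] (M₀ : Subgroup (FreeGroup (Fin (k + 1)))) [M₀.Normal]
    (h0 : M₀.index ≠ 0) (hc : Nat.Coprime M₀.index ℓ) :
    Function.Injective (fun z : Fin k → ZMod ℓ => M₀ ⊓ (chz ℓ z).ker) := by
  intro z z' h
  funext i
  let w : FreeGroup (Fin (k + 1)) :=
    (FreeGroup.of i.succ * (FreeGroup.of 0 ^ (z i).val)⁻¹) ^ M₀.index
  have key : ∀ y : Fin k → ZMod ℓ, Multiplicative.toAdd (chz ℓ y w) =
      (M₀.index : ZMod ℓ) * (y i - z i) := by
    intro y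
    have : chz ℓ y w = Multiplicative.ofAdd ((M₀.index : ZMod ℓ) * (y i - z i)) := by
      show chz ℓ y ((FreeGroup.of i.succ * (FreeGroup.of 0 ^ (z i).val)⁻¹) ^ M₀.index) = _
      rw [map_pow, map_mul, map_inv, map_pow, chz_zero, chz_succ, ← ofAdd_nsmul, ← ofAdd_neg,
        ← ofAdd_add, ← ofAdd_nsmul]
      congr 1
      simp only [nsmul_eq_mul, ZMod.natCast_val, ZMod.cast_id', id_eq, mul_one]
      ring
    rw [this]; rfl
  have hw : w ∈ M₀ ⊓ (chz ℓ z).ker := by
    refine ⟨Subgroup.pow_index_mem M₀ _, ?_⟩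
    show chz ℓ z w = 1
    apply Multiplicative.toAdd.injective
    rw [key z, sub_self, mul_zero]; rfl
  have hw' : w ∈ M₀ ⊓ (chz ℓ z').ker := by
    have h' : M₀ ⊓ (chz ℓ z).ker = M₀ ⊓ (chz ℓ z').ker := h
    rwa [h'] at hw
  have h2 : chz ℓ z' w = 1 := hw'.2
  have h3 := key z'
  rw [h2] at h3
  have h4 : (M₀.index : ZMod ℓ) ≠ 0 := by
    intro h5
    rw [ZMod.natCast_eq_zero_iff] at h5
    have h6 := Nat.Coprime.eq_one_of_dvd hc.symm h5
    exact (Fact.out : ℓ.Prime).one_lt.ne' h6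
  have h7 : (M₀.index : ZMod ℓ) * (z' i - z i) = 0 := h3.symm
  rcases mul_eq_zero.1 h7 with h8 | h8
  · exact absurd h8 h4
  · exact (sub_eq_zero.1 h8).symm

end fam

end H749.Box
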