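import Pool.Agent.H749R3.NS

set_option autoImplicit false

/-! The relation between the indices of paired subgroups. -/

namespace H749.Box

/-- short elements of `N` -/
def sh {n : ℕ} (N : Subgroup (FreeGroup (Fin n))) (C : ℕ) : Set (FreeGroup (Fin n)) :=
  {v | v ∈ N ∧ v.norm ≤ C}

theorem ball_finite (n C : ℕ) : {w : FreeGroup (Fin n) | w.norm ≤ C}.Finite := by
  have h := (List.finite_length_le (Fin n × Bool) C).preimage
    (FreeGroup.toWord_injective (α := Fin n)).injOn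
  exact h

/-- `M` and `N` are matched by a homomorphism. -/
def IsPair {m n : ℕ} (C : ℕ) (M : Subgroup (FreeGroup (Fin m)))
    (N : Subgroup (FreeGroup (Fin n))) : Prop :=
  N.Normal ∧ M.index ≠ 0 ∧ N.index ≠ 0 ∧ ∃ ρ : N →* FreeGroup (Fin m), ρ.range = M ∧
    ρ.ker = (Subgroup.normalClosure (sh N C)).subgroupOf N

theorem pair_aux {m n : ℕ} {M : Subgroup (FreeGroup (Fin m))}
    {N K L : Subgroup (FreeGroup (Fin n))} (hKN : K ≤ N) (hLK : L ≤ K)
    (ρ : N →* FreeGroup (Fin m)) (hr : ρ.range = M) (hk : ρ.ker = L.subgroupOf N) :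
    ∃ σ : K →* FreeGroup (Fin m), σ.range.index * N.index = K.index * M.index ∧
      σ.ker = L.subgroupOf K := by
  refine ⟨ρ.comp (Subgroup.inclusion hKN), ?_, ?_⟩
  · have h1 : (ρ.comp (Subgroup.inclusion hKN)).range = (K.subgroupOf N).map ρ := by
      ext x
      constructor
      · rintro ⟨v, rfl⟩
        exact ⟨Subgroup.inclusion hKN v, v.2, rfl⟩
      · rintro ⟨v, hv, rfl⟩
        exact ⟨⟨v.1, hv⟩, rfl⟩
    have h2 : ρ.ker ≤ K.subgroupOf N := by
      rw [hk]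
      exact Subgroup.comap_mono hLK
    have h3 := Subgroup.index_map (K.subgroupOf N) ρ
    rw [sup_eq_left.2 h2, hr] at h3
    have h4 : (K.subgroupOf N).index * N.index = K.index := Subgroup.relIndex_mul_index hKN
    rw [h1, h3, ← h4]; ring
  · ext v
    rw [MonoidHom.mem_ker, Subgroup.mem_subgroupOf]
    show ρ (Subgroup.inclusion hKN v) = 1 ↔ _
    rw [← MonoidHom.mem_ker, hk, Subgroup.mem_subgroupOf]
    rfl

theorem index_rel {m n : ℕ} (hm : 2 ≤ m) {C : ℕ} {M₁ M₂ : Subgroup (FreeGroup (Fin m))}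
    {N₁ N₂ : Subgroup (FreeGroup (Fin n))} (h₁ : IsPair C M₁ N₁) (h₂ : IsPair C M₂ N₂)
    (hT : sh N₁ C = sh N₂ C) : M₁.index * N₂.index = M₂.index * N₁.index := by
  obtain ⟨hN1, hM1i, hN1i, ρ₁, hr1, hk1⟩ := h₁
  obtain ⟨hN2, hM2i, hN2i, ρ₂, hr2, hk2⟩ := h₂
  set L := Subgroup.normalClosure (sh N₁ C) with hL
  rw [← hT, ← hL] at hk2
  have hL1 : L ≤ N₁ := Subgroup.normalClosure_le_normal (fun v hv => hv.1)
  have hL2 : L ≤ N₂ := by
    rw [hL, hT]
    exact Subgroup.normalClosure_le_normal (fun v hv => hv.1)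
  set K := N₁ ⊓ N₂ with hK
  have hKi : K.index ≠ 0 := Subgroup.index_inf_ne_zero hN1i hN2i
  have hLK : L ≤ K := le_inf hL1 hL2
  obtain ⟨σ₁, hσ1, hσ1k⟩ := pair_aux inf_le_left hLK ρ₁ hr1 hk1
  obtain ⟨σ₂, hσ2, hσ2k⟩ := pair_aux inf_le_right hLK ρ₂ hr2 hk2
  have e : σ₁.range ≃* σ₂.range :=
    (QuotientGroup.quotientKerEquivRange σ₁).symm.trans
      ((QuotientGroup.quotientMulEquivOfEq (hσ1k.trans hσ2k.symm)).trans
        (QuotientGroup.quotientKerEquivRange σ₂))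
  have i1 : σ₁.range.index ≠ 0 := by
    intro h
    rw [h, zero_mul] at hσ1
    exact (Nat.mul_ne_zero hKi hM1i) hσ1.symm
  have i2 : σ₂.range.index ≠ 0 := by
    intro h
    rw [h, zero_mul] at hσ2
    exact (Nat.mul_ne_zero hKi hM2i) hσ2.symm
  have h3 := index_eq_of_equiv hm _ _ i1 i2 e
  rw [h3] at hσ1
  -- s * N₁ = K * M₁,  s * N₂ = K * M₂
  apply Nat.eq_of_mul_eq_mul_left (Nat.pos_of_ne_zero hKi)
  calc K.index * (M₁.index * N₂.index) = (K.index * M₁.index) * N₂.index := by ring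
    _ = (σ₂.range.index * N₁.index) * N₂.index := by rw [hσ1]
    _ = (σ₂.range.index * N₂.index) * N₁.index := by ring
    _ = (K.index * M₂.index) * N₁.index := by rw [hσ2]
    _ = K.index * (M₂.index * N₁.index) := by ring

theorem index_bound {m n : ℕ} (hm : 2 ≤ m) (C : ℕ) : ∃ A B : ℕ,
    ∀ (M : Subgroup (FreeGroup (Fin m))) (N : Subgroup (FreeGroup (Fin n))), IsPair C M N →
      ∃ p q : ℕ, 0 < p ∧ p ≤ B ∧ 0 < q ∧ q ≤ A ∧ M.index * q = p * N.index := by
  classical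
  let P : Set (FreeGroup (Fin n)) → Prop := fun T =>
    ∃ (M : Subgroup (FreeGroup (Fin m))) (N : Subgroup (FreeGroup (Fin n))),
      IsPair C M N ∧ sh N C = T
  let refp : Set (FreeGroup (Fin n)) → ℕ × ℕ := fun T =>
    if h : P T then (h.choose.index, h.choose_spec.choose.index) else (0, 0)
  have hfin : (refp '' {T | T ⊆ {w : FreeGroup (Fin n) | w.norm ≤ C}}).Finite := by
    apply Set.Finite.image
    exact (ball_finite n C).finite_subsets
  obtain ⟨b, hb⟩ := hfin.bddAbove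
  refine ⟨b.2, b.1, ?_⟩
  intro M N hMN
  have hPT : P (sh N C) := ⟨M, N, hMN, rfl⟩
  have h1 : refp (sh N C) ≤ b := by
    apply hb
    exact ⟨sh N C, fun v hv => hv.2, rfl⟩
  have h2 : refp (sh N C) = (hPT.choose.index, hPT.choose_spec.choose.index) := by
    show (if h : P (sh N C) then _ else _) = _
    rw [dif_pos hPT]
  obtain ⟨h3, h4⟩ := hPT.choose_spec.choose_spec
  rw [h2] at h1
  refine ⟨_, _, Nat.pos_of_ne_zero h3.2.1, h1.1, Nat.pos_of_ne_zero h3.2.2.1, h1.2, ?_⟩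
  exact index_rel hm hMN h3 h4.symm

end H749.Box
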