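import Mathlib

set_option autoImplicit false

namespace Pool.Agent.H749R3

open Monoid

/-- index groups -/
abbrev GG : Fin 2 → Type := fun _ => Multiplicative ℤ

/-- syllables -/
abbrev SL : Type := List (Σ i : Fin 2, GG i)

/-- a syllable list is reduced -/
def Red (l : SL) : Prop := (∀ p ∈ l, Sigma.snd p ≠ 1) ∧ l.IsChain fun a b => a.1 ≠ b.1

/-- product in the free product -/
def pr (l : SL) : CoprodI GG := (l.map fun p => CoprodI.of p.2).prod

/-- evaluation of a syllable list through a function on syllables -/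
def ev {Γ : Type} [Group Γ] (f : (i : Fin 2) → Multiplicative ℤ → Γ) (l : SL) : Γ :=
  (l.map fun p => f p.1 p.2).prod

theorem pr_append (l l' : SL) : pr (l ++ l') = pr l * pr l' := by simp [pr]
theorem ev_append {Γ : Type} [Group Γ] (f : (i : Fin 2) → Multiplicative ℤ → Γ) (l l' : SL) :
    ev f (l ++ l') = ev f l * ev f l' := by simp [ev]
theorem pr_nil : pr [] = 1 := rfl
theorem ev_nil {Γ : Type} [Group Γ] (f : (i : Fin 2) → Multiplicative ℤ → Γ) : ev f [] = 1 := rfl
theorem pr_single (i : Fin 2) (x : Multiplicative ℤ) :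
    pr [⟨i, x⟩] = CoprodI.of (i := i) (M := GG) x := by simp [pr]
theorem ev_single {Γ : Type} [Group Γ] (f : (i : Fin 2) → Multiplicative ℤ → Γ) (i : Fin 2)
    (x : Multiplicative ℤ) : ev f [⟨i, x⟩] = f i x := by simp [ev]

/-- odd functions -/
structure Odd {Γ : Type} [Group Γ] (f : (i : Fin 2) → Multiplicative ℤ → Γ) : Prop where
  inv : ∀ i x, f i x⁻¹ = (f i x)⁻¹
  one : ∀ i, f i 1 = 1

theorem junction (l1 : SL) : Red l1 → ∀ l2 : SL, Red l2 →
    ∃ l3 : SL, Red l3 ∧ pr l3 = pr l1 * pr l2 ∧ ∃ (i : Fin 2) (x y : Multiplicative ℤ),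
      ∀ (Γ : Type) (_ : Group Γ) (f : (i : Fin 2) → Multiplicative ℤ → Γ), Odd f →
        ∃ A B : Γ, ev f l3 = A * f i (x * y) * B ∧ ev f l1 * ev f l2 = A * (f i x * f i y) * B := by
  induction l1 using List.reverseRecOn with
  | nil =>
    intro _ l2 h2
    refine ⟨l2, h2, by simp [pr_nil], 0, 1, 1, ?_⟩
    intro Γ _ f hf
    exact ⟨1, ev f l2, by simp [hf.one], by simp [hf.one, ev_nil]⟩
  | append_singleton l1' p ih =>
    intro h1 l2 h2
    obtain ⟨i, x⟩ := p
    have h1' : Red l1' := ⟨fun q hq => h1.1 q (by simp [hq]), (List.isChain_append.1 h1.2).1⟩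
    cases l2 with
    | nil =>
      refine ⟨l1' ++ [⟨i, x⟩], h1, by simp [pr_nil], 0, 1, 1, ?_⟩
      intro Γ _ f hf
      exact ⟨ev f (l1' ++ [⟨i, x⟩]), 1, by simp [hf.one], by simp [hf.one, ev_nil]⟩
    | cons q l2' =>
      obtain ⟨i', y⟩ := q
      have h2' : Red l2' := ⟨fun q hq => h2.1 q (by simp [hq]), h2.2.tail⟩
      by_cases hi : i = i'
      · subst hi
        by_cases hxy : (x : Multiplicative ℤ) * y = 1
        · obtain ⟨l3, h3, hp, j, a, b, hab⟩ := ih h1' l2' h2'
          refine ⟨l3, h3, ?_, j, a, b, ?_⟩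
          · rw [hp, pr_append, pr_single, show (⟨i, y⟩ :: l2' : SL) = [⟨i, y⟩] ++ l2' from rfl,
              pr_append, pr_single, mul_assoc, ← mul_assoc (CoprodI.of x) (CoprodI.of y),
              ← map_mul]
            have : (x : GG i) * y = 1 := hxy
            rw [this, map_one, one_mul]
          · intro Γ _ f hf
            obtain ⟨A, B, hA, hB⟩ := hab Γ _ f hf
            refine ⟨A, B, hA, ?_⟩
            rw [← hB, ev_append, ev_single, show (⟨i, y⟩ :: l2' : SL) = [⟨i, y⟩] ++ l2' from rfl,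
              ev_append, ev_single, mul_assoc, ← mul_assoc (f i x) (f i y)]
            have hy : y = (x : Multiplicative ℤ)⁻¹ := by
              exact (inv_eq_of_mul_eq_one_right hxy).symm
            rw [hy, hf.inv, mul_inv_cancel, one_mul]
        · refine ⟨l1' ++ ([⟨i, (x : Multiplicative ℤ) * y⟩] ++ l2'), ?_, ?_, i, x, y, ?_⟩
          · refine ⟨?_, ?_⟩
            · intro q hq
              simp only [List.mem_append, List.mem_singleton] at hq
              rcases hq with hq | hq | hq
              · exact h1'.1 q hq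
              · subst hq; exact hxy
              · exact h2'.1 q hq
            · have e1 := h1.2
              have e2 := h2.2
              rw [List.isChain_append] at e1 ⊢
              refine ⟨e1.1, ?_, ?_⟩
              · rw [List.singleton_append]
                rw [List.isChain_cons] at e2 ⊢
                exact ⟨fun z hz => e2.1 z hz, e2.2⟩
              · intro u hu v hv
                simp at hv
                subst hv
                exact e1.2.2 u hu ⟨i, x⟩ (by simp)
          · rw [pr_append, pr_append, pr_append, pr_single, pr_single,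
              show (⟨i, y⟩ :: l2' : SL) = [⟨i, y⟩] ++ l2' from rfl, pr_append, pr_single]
            rw [show (CoprodI.of (M := GG) (i := i) ((x : Multiplicative ℤ) * y)) =
              CoprodI.of (M := GG) (i := i) x * CoprodI.of (M := GG) (i := i) y from map_mul _ _ _]
            simp only [mul_assoc]
          · intro Γ _ f hf
            refine ⟨ev f l1', ev f l2', ?_, ?_⟩
            · rw [ev_append, ev_append, ev_single, mul_assoc]
            · rw [ev_append, ev_single, show (⟨i, y⟩ :: l2' : SL) = [⟨i, y⟩] ++ l2' from rfl,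
                ev_append, ev_single]
              simp only [mul_assoc]
      · refine ⟨(l1' ++ [⟨i, x⟩]) ++ (⟨i', y⟩ :: l2'), ?_, by rw [pr_append], 0, 1, 1, ?_⟩
        · refine ⟨?_, ?_⟩
          · intro q hq
            rw [List.mem_append] at hq
            rcases hq with hq | hq
            · exact h1.1 q hq
            · exact h2.1 q hq
          · rw [List.isChain_append]
            refine ⟨h1.2, h2.2, ?_⟩
            intro u hu v hv
            simp at hu hv
            subst hu; subst hv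
            exact hi
        · intro Γ _ f hf
          refine ⟨ev f (l1' ++ [⟨i, x⟩]), ev f (⟨i', y⟩ :: l2'), ?_, ?_⟩
          · have e := ev_append f (l1' ++ [(⟨i, x⟩ : Σ i : Fin 2, GG i)]) (⟨i', y⟩ :: l2')
            rw [e, mul_one, hf.one, mul_one]
          · simp [hf.one]

/-- the syllable list of an element of the free product -/
noncomputable def sylC (g : CoprodI GG) : SL := (CoprodI.Word.equiv g).toList

theorem sylC_red (g : CoprodI GG) : Red (sylC g) :=
  ⟨(CoprodI.Word.equiv g).ne_one, (CoprodI.Word.equiv g).chain_ne⟩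

theorem pr_sylC (g : CoprodI GG) : pr (sylC g) = g := by
  have : (CoprodI.Word.equiv g).prod = g := CoprodI.Word.equiv.symm_apply_apply g
  exact this

theorem sylC_eq (l : SL) (h : Red l) : sylC (pr l) = l := by
  have : CoprodI.Word.equiv (CoprodI.Word.prod (⟨l, h.1, h.2⟩ : CoprodI.Word GG)) = ⟨l, h.1, h.2⟩ :=
    CoprodI.Word.equiv.apply_symm_apply _
  unfold sylC
  have h2 : pr l = CoprodI.Word.prod (⟨l, h.1, h.2⟩ : CoprodI.Word GG) := rfl
  rw [h2, this]

/-- embedding of the free group in the free product of copies of the integers -/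
noncomputable def io : FreeGroup (Fin 2) →* CoprodI GG :=
  FreeGroup.lift fun i => CoprodI.of (M := GG) (i := i) (Multiplicative.ofAdd (1 : ℤ))

/-- the noncommutative Rolli map -/
noncomputable def TT {Γ : Type} [Group Γ] (f : (i : Fin 2) → Multiplicative ℤ → Γ)
    (g : FreeGroup (Fin 2)) : Γ := ev f (sylC (io g))

theorem TT_mul (g h : FreeGroup (Fin 2)) : ∃ (i : Fin 2) (x y : Multiplicative ℤ),
      ∀ (Γ : Type) (_ : Group Γ) (f : (i : Fin 2) → Multiplicative ℤ → Γ), Odd f →
        ∃ A B : Γ, TT f (g * h) = A * f i (x * y) * B ∧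
          TT f g * TT f h = A * (f i x * f i y) * B := by
  obtain ⟨l3, h3, hp, i, x, y, H⟩ := junction (sylC (io g)) (sylC_red _) (sylC (io h)) (sylC_red _)
  refine ⟨i, x, y, ?_⟩
  intro Γ _ f hf
  obtain ⟨A, B, hA, hB⟩ := H Γ _ f hf
  refine ⟨A, B, ?_, hB⟩
  rw [← hA]
  unfold TT
  rw [map_mul, ← sylC_eq l3 h3, hp, pr_sylC, pr_sylC]

theorem ev_inv_rev {Γ : Type} [Group Γ] (f : (i : Fin 2) → Multiplicative ℤ → Γ) (hf : Odd f)
    (l : SL) : ev f ((l.map fun p => (⟨p.1, (p.2 : GG p.1)⁻¹⟩ : Σ i : Fin 2, GG i)).reverse) =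
      (ev f l)⁻¹ := by
  induction l with
  | nil => simp [ev_nil]
  | cons p l ih =>
    rw [List.map_cons, List.reverse_cons, ev_append, ih, ev_single,
      show (p :: l : SL) = [p] ++ l from rfl, ev_append, mul_inv_rev]
    congr 1
    rw [show p = ⟨p.1, p.2⟩ from rfl, ev_single]
    exact hf.inv _ _

theorem pr_inv_rev (l : SL) :
    pr ((l.map fun p => (⟨p.1, (p.2 : GG p.1)⁻¹⟩ : Σ i : Fin 2, GG i)).reverse) = (pr l)⁻¹ := by
  induction l with
  | nil => simp [pr_nil]
  | cons p l ih =>
    rw [List.map_cons, List.reverse_cons, pr_append, ih, 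
      show (p :: l : SL) = [p] ++ l from rfl, pr_append, mul_inv_rev]
    try congr 1
    try simp [pr]

theorem red_inv_rev (l : SL) (h : Red l) :
    Red ((l.map fun p => (⟨p.1, (p.2 : GG p.1)⁻¹⟩ : Σ i : Fin 2, GG i)).reverse) := by
  refine ⟨?_, ?_⟩
  · intro p hp
    simp only [List.mem_reverse, List.mem_map] at hp
    obtain ⟨a, ha, rfl⟩ := hp
    have := h.1 a ha
    simpa using this
  · rw [List.isChain_reverse, List.isChain_map]
    refine h.2.imp ?_
    intro a b hab
    exact fun h' => hab h'.symm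

theorem TT_inv {Γ : Type} [Group Γ] (f : (i : Fin 2) → Multiplicative ℤ → Γ) (hf : Odd f)
    (g : FreeGroup (Fin 2)) : TT f g⁻¹ = (TT f g)⁻¹ := by
  unfold TT
  rw [← ev_inv_rev f hf, ← sylC_eq _ (red_inv_rev _ (sylC_red (io g))), pr_inv_rev, pr_sylC,
    map_inv]

theorem TT_of_list {Γ : Type} [Group Γ] (f : (i : Fin 2) → Multiplicative ℤ → Γ)
    (g : FreeGroup (Fin 2)) (l : SL) (hl : Red l) (h : io g = pr l) : TT f g = ev f l := by
  unfold TT
  rw [h, sylC_eq l hl]

theorem TT_one {Γ : Type} [Group Γ] (f : (i : Fin 2) → Multiplicative ℤ → Γ) :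
    TT f 1 = 1 := by
  rw [TT_of_list f 1 [] ⟨by simp, List.isChain_nil⟩ (by simp [pr_nil]), ev_nil]

theorem TT_of {Γ : Type} [Group Γ] (f : (i : Fin 2) → Multiplicative ℤ → Γ) (i : Fin 2) :
    TT f (FreeGroup.of i) = f i (Multiplicative.ofAdd 1) := by
  rw [TT_of_list f _ [⟨i, Multiplicative.ofAdd (1 : ℤ)⟩] ⟨?_, List.isChain_singleton _⟩ ?_,
    ev_single]
  · intro p hp
    simp only [List.mem_singleton] at hp
    subst hp
    intro h
    have : (1 : ℤ) = 0 := congrArg Multiplicative.toAdd h
    omega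
  · rw [pr_single]; simp [io]

/-- homomorphisms: a family of homomorphisms on syllables evaluates to a homomorphism -/
theorem ev_hom {Γ : Type} [Group Γ] (ψ : (i : Fin 2) → Multiplicative ℤ →* Γ) (l : SL) :
    ev (fun i x => ψ i x) l = CoprodI.lift (M := GG) ψ (pr l) := by
  induction l with
  | nil => simp [ev_nil, pr_nil]
  | cons p l ih =>
    rw [show (p :: l : SL) = [p] ++ l from rfl, ev_append, pr_append, map_mul, ih]
    congr 1
    rw [show p = ⟨p.1, p.2⟩ from rfl, ev_single, pr_single]
    simp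

theorem TT_hom {Γ : Type} [Group Γ] (ψ : (i : Fin 2) → Multiplicative ℤ →* Γ)
    (g : FreeGroup (Fin 2)) :
    TT (fun i x => ψ i x) g = FreeGroup.lift (fun i => ψ i (Multiplicative.ofAdd 1)) g := by
  unfold TT
  rw [ev_hom, pr_sylC]
  have : (CoprodI.lift (M := GG) ψ).comp io =
      FreeGroup.lift (fun i => ψ i (Multiplicative.ofAdd 1)) := by
    ext i
    simp [io]
  rw [← this]; rfl

theorem map_ev {Γ Δ : Type} [Group Γ] [Group Δ] (θ : Γ →* Δ)
    (f : (i : Fin 2) → Multiplicative ℤ → Γ) (l : SL) :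
    θ (ev f l) = ev (fun i x => θ (f i x)) l := by
  unfold ev
  rw [map_list_prod, List.map_map]; rfl

theorem map_TT {Γ Δ : Type} [Group Γ] [Group Δ] (θ : Γ →* Δ)
    (f : (i : Fin 2) → Multiplicative ℤ → Γ) (g : FreeGroup (Fin 2)) :
    θ (TT f g) = TT (fun i x => θ (f i x)) g := map_ev θ f _

end Pool.Agent.H749R3
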