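import Mathlib
import Pool.Agent.H749R3.Syl

set_option autoImplicit false

namespace Pool.Agent.H749R3

/-- lamplighter-type group: lamps with integer values on the cycle of length `m`, shift in `ℤ` -/
@[ext] structure Lamp (m : ℕ) where
  v : ZMod m → ℤ
  s : ℤ

namespace Lamp
variable {m : ℕ}

instance : Mul (Lamp m) := ⟨fun x y => ⟨fun i => x.v i + y.v (i - (x.s : ZMod m)), x.s + y.s⟩⟩
instance : One (Lamp m) := ⟨⟨fun _ => 0, 0⟩⟩
instance : Inv (Lamp m) := ⟨fun x => ⟨fun i => - x.v (i + (x.s : ZMod m)), -x.s⟩⟩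

@[simp] theorem mul_s (x y : Lamp m) : (x * y).s = x.s + y.s := rfl
@[simp] theorem mul_v (x y : Lamp m) (i : ZMod m) :
    (x * y).v i = x.v i + y.v (i - (x.s : ZMod m)) := rfl
@[simp] theorem one_s : (1 : Lamp m).s = 0 := rfl
@[simp] theorem one_v (i : ZMod m) : (1 : Lamp m).v i = 0 := rfl
@[simp] theorem inv_s (x : Lamp m) : (x⁻¹).s = - x.s := rfl
@[simp] theorem inv_v (x : Lamp m) (i : ZMod m) : (x⁻¹).v i = - x.v (i + (x.s : ZMod m)) := rfl

instance : Group (Lamp m) := Group.ofLeftAxioms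
  (by
    intro x y z
    ext i
    · simp only [mul_v, mul_s, Int.cast_add]
      rw [add_assoc, sub_sub]
    · simp only [mul_s, add_assoc])
  (by intro x; ext i <;> simp)
  (by
    intro x
    ext i
    · simp
    · simp)

/-- the shift homomorphism -/
def sHom : Lamp m →* Multiplicative ℤ where
  toFun x := Multiplicative.ofAdd x.s
  map_one' := rfl
  map_mul' _ _ := rfl

/-- the total lamp homomorphism -/
def vHom [NeZero m] : Lamp m →* Multiplicative ℤ where
  toFun x := Multiplicative.ofAdd (∑ i, x.v i)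
  map_one' := by simp
  map_mul' x y := by
    rw [← ofAdd_add]
    congr 1
    simp only [mul_v]
    rw [Finset.sum_add_distrib]
    congr 1
    exact Fintype.sum_equiv (Equiv.subRight ((x.s : ℤ) : ZMod m)) _ _ (fun _ => rfl)

end Lamp

/-- the syllable function with markers at the syllables `b^j`, `b^{-j}` -/
def lam (m : ℕ) (c : Fin 2 → ℤ) (j : ℕ) (i : Fin 2) (x : Multiplicative ℤ) : Lamp m :=
  if i = 1 ∧ x.toAdd = (j : ℤ) then ⟨fun p => if p = 1 then c i * x.toAdd else 0, 1⟩
  else if i = 1 ∧ x.toAdd = -(j : ℤ) then ⟨fun p => if p = 0 then c i * x.toAdd else 0, -1⟩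
  else ⟨fun p => if p = 0 then c i * x.toAdd else 0, 0⟩

theorem lam_of_not (m : ℕ) (c : Fin 2 → ℤ) (j : ℕ) (i : Fin 2) (x : Multiplicative ℤ)
    (h : i = 1 → x.toAdd.natAbs ≠ j) :
    lam m c j i x = ⟨fun p => if p = 0 then c i * x.toAdd else 0, 0⟩ := by
  unfold lam
  rw [if_neg, if_neg]
  · rintro ⟨h1, h2⟩
    exact h h1 (by omega)
  · rintro ⟨h1, h2⟩
    exact h h1 (by omega)

theorem lam_odd (m : ℕ) (c : Fin 2 → ℤ) (j : ℕ) (hj : 1 ≤ j) : Odd (lam m c j) := by
  constructor
  · intro i x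
    unfold lam
    by_cases h1 : i = 1 ∧ x.toAdd = (j : ℤ)
    · have h2 : ¬ (i = 1 ∧ (x⁻¹).toAdd = (j : ℤ)) := by
        rintro ⟨_, h⟩
        rw [toAdd_inv] at h
        omega
      have h3 : (i = 1 ∧ (x⁻¹).toAdd = -(j : ℤ)) := ⟨h1.1, by rw [toAdd_inv, h1.2]⟩
      rw [if_neg h2, if_pos h3, if_pos h1]
      ext p
      · simp only [Lamp.inv_v, toAdd_inv, Int.cast_one, mul_neg]
        by_cases hp : p = 0
        · subst hp; simp
        · rw [if_neg hp, if_neg (by intro h; exact hp (by simpa using h))]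
          simp
      · simp
    · by_cases h2 : i = 1 ∧ x.toAdd = -(j : ℤ)
      · have h3 : (i = 1 ∧ (x⁻¹).toAdd = (j : ℤ)) := ⟨h2.1, by rw [toAdd_inv, h2.2]; simp⟩
        rw [if_pos h3, if_neg h1, if_pos h2]
        ext p
        · simp only [Lamp.inv_v, toAdd_inv, Int.cast_neg, Int.cast_one, mul_neg]
          by_cases hp : p = 1
          · subst hp; simp
          · rw [if_neg hp, if_neg (by
              intro h; apply hp
              have : p = 0 + 1 := by rw [← h]; ring
              simpa using this)]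
            simp
        · simp
      · have h3 : ¬ (i = 1 ∧ (x⁻¹).toAdd = (j : ℤ)) := by
          rintro ⟨h, h'⟩
          rw [toAdd_inv] at h'
          exact h2 ⟨h, by omega⟩
        have h4 : ¬ (i = 1 ∧ (x⁻¹).toAdd = -(j : ℤ)) := by
          rintro ⟨h, h'⟩
          rw [toAdd_inv] at h'
          exact h1 ⟨h, by omega⟩
        rw [if_neg h3, if_neg h4, if_neg h1, if_neg h2]
        ext p
        · simp only [Lamp.inv_v, toAdd_inv, Int.cast_zero, add_zero, mul_neg]
          split <;> simp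
        · simp
  · intro i
    rw [lam_of_not _ _ _ _ _ (by intro _; simp; omega)]
    ext p <;> simp

theorem lam_mul (m : ℕ) (c : Fin 2 → ℤ) (j : ℕ) (i : Fin 2) (x y : Multiplicative ℤ)
    (h1 : i = 1 → x.toAdd.natAbs ≠ j) (h2 : i = 1 → y.toAdd.natAbs ≠ j)
    (h3 : i = 1 → (x * y).toAdd.natAbs ≠ j) :
    lam m c j i (x * y) = lam m c j i x * lam m c j i y := by
  rw [lam_of_not _ _ _ _ _ h1, lam_of_not _ _ _ _ _ h2, lam_of_not _ _ _ _ _ h3]
  ext p
  · simp only [Lamp.mul_v, toAdd_mul, Int.cast_zero, sub_zero]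
    split
    · ring
    · simp
  · simp

theorem lam_s_abs (m : ℕ) (c : Fin 2 → ℤ) (j : ℕ) (i : Fin 2) (x : Multiplicative ℤ) :
    |(lam m c j i x).s| ≤ 1 := by
  unfold lam
  split
  · simp
  · split <;> simp

theorem lam_vsum (m : ℕ) [NeZero m] (c : Fin 2 → ℤ) (j : ℕ) (i : Fin 2) (x : Multiplicative ℤ) :
    ∑ p, (lam m c j i x).v p = c i * x.toAdd := by
  unfold lam
  split
  · simp
  · split <;> simp

/-- the map `T_j` -/
noncomputable def TJ (m : ℕ) (c : Fin 2 → ℤ) (j : ℕ) (g : FreeGroup (Fin 2)) : Lamp m :=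
  TT (lam m c j) g

/-- homomorphisms to the integers -/
noncomputable def chi (c : Fin 2 → ℤ) : FreeGroup (Fin 2) →* Multiplicative ℤ :=
  FreeGroup.lift fun i => Multiplicative.ofAdd (c i)

theorem TJ_vsum (m : ℕ) [NeZero m] (c : Fin 2 → ℤ) (j : ℕ) (g : FreeGroup (Fin 2)) :
    ∑ p, (TJ m c j g).v p = (chi c g).toAdd := by
  have h : Lamp.vHom (TJ m c j g) = chi c g := by
    unfold TJ
    rw [map_TT]
    have : (fun i x => Lamp.vHom (lam m c j i x)) =
        fun (i : Fin 2) (x : Multiplicative ℤ) => (zpowersHom (Multiplicative ℤ)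
          (Multiplicative.ofAdd (c i))) x := by
      funext i x
      change Multiplicative.ofAdd (∑ p, (lam m c j i x).v p) = _
      rw [lam_vsum]
      simp only [zpowersHom_apply]
      rw [← ofAdd_zsmul, smul_eq_mul, mul_comm]
    rw [this, TT_hom]
    unfold chi
    congr 2
    funext i
    simp
  rw [← h]; rfl

end Pool.Agent.H749R3
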