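import Mathlib
import Pool.Agent.H749R3.Lamp

set_option autoImplicit false

namespace Pool.Agent.H749R3

/-- integer valued marker count -/
noncomputable def sj (j : ℕ) (g : FreeGroup (Fin 2)) : ℤ := (TJ 1 0 j g).s

theorem lam_s_indep (m m' : ℕ) (c c' : Fin 2 → ℤ) (j : ℕ) (i : Fin 2) (x : Multiplicative ℤ) :
    (lam m c j i x).s = (lam m' c' j i x).s := by
  unfold lam
  split
  · rfl
  · split <;> rfl

theorem TJ_s (m : ℕ) (c : Fin 2 → ℤ) (j : ℕ) (g : FreeGroup (Fin 2)) :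
    (TJ m c j g).s = sj j g := by
  have h : Lamp.sHom (TJ m c j g) = Lamp.sHom (TJ 1 0 j g) := by
    unfold TJ
    rw [map_TT, map_TT]
    congr 1
    funext i x
    change Multiplicative.ofAdd _ = Multiplicative.ofAdd _
    rw [lam_s_indep]
  exact congrArg Multiplicative.toAdd h

theorem mul_bad (g h : FreeGroup (Fin 2)) : ∃ B : Finset ℕ, B.card ≤ 3 ∧
    (∀ j, 1 ≤ j → j ∉ B → ∀ m c, TJ m c j (g * h) = TJ m c j g * TJ m c j h) ∧
    ∀ j, 1 ≤ j → |sj j (g * h) - sj j g - sj j h| ≤ 3 := by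
  obtain ⟨i, x, y, H⟩ := TT_mul g h
  refine ⟨{x.toAdd.natAbs, y.toAdd.natAbs, (x * y).toAdd.natAbs}, Finset.card_le_three, ?_, ?_⟩
  · intro j hj hB m c
    simp only [Finset.mem_insert, Finset.mem_singleton, not_or] at hB
    obtain ⟨A, B, hA, hAB⟩ := H _ _ (lam m c j) (lam_odd m c j hj)
    unfold TJ
    rw [hA, hAB, lam_mul m c j i x y (fun _ => Ne.symm hB.1) (fun _ => Ne.symm hB.2.1)
      (fun _ => Ne.symm hB.2.2)]
  · intro j hj
    obtain ⟨A, B, hA, hAB⟩ := H _ _ (lam 1 0 j) (lam_odd 1 0 j hj)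
    have e1 : sj j (g * h) = A.s + (lam 1 0 j i (x * y)).s + B.s := by
      unfold sj TJ; rw [hA]; simp
    have e2 : sj j g + sj j h = A.s + ((lam 1 0 j i x).s + (lam 1 0 j i y).s) + B.s := by
      have := congrArg Lamp.s hAB
      simp only [Lamp.mul_s] at this
      exact this
    have h1 := abs_le.1 (lam_s_abs 1 0 j i (x * y))
    have h2 := abs_le.1 (lam_s_abs 1 0 j i x)
    have h3 := abs_le.1 (lam_s_abs 1 0 j i y)
    rw [abs_le]
    constructor <;> linarith [h1.1, h1.2, h2.1, h2.2, h3.1, h3.2]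

theorem TJ_inv (m : ℕ) (c : Fin 2 → ℤ) (j : ℕ) (hj : 1 ≤ j) (g : FreeGroup (Fin 2)) :
    TJ m c j g⁻¹ = (TJ m c j g)⁻¹ := TT_inv _ (lam_odd m c j hj) g

theorem sj_inv (j : ℕ) (hj : 1 ≤ j) (g : FreeGroup (Fin 2)) : sj j g⁻¹ = - sj j g := by
  unfold sj; rw [TJ_inv _ _ _ hj]; simp

/-- l1 norm of the lamps -/
def nrm {m : ℕ} [NeZero m] (x : Lamp m) : ℤ := ∑ p, |x.v p|

theorem nrm_conj {m : ℕ} [NeZero m] (x y : Lamp m) (hx : x.s = 0) : nrm (y * x * y⁻¹) = nrm x := by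
  unfold nrm
  have : ∀ p, |(y * x * y⁻¹).v p| = |x.v (p - (y.s : ZMod m))| := by
    intro p
    congr 1
    simp only [Lamp.mul_v, Lamp.mul_s, Lamp.inv_v, hx, add_zero, sub_add_cancel]
    ring
  rw [Finset.sum_congr rfl fun p _ => this p]
  exact Fintype.sum_equiv (Equiv.subRight ((y.s : ℤ) : ZMod m)) _ _ (fun _ => rfl)

theorem nrm_mul {m : ℕ} [NeZero m] (x y : Lamp m) : nrm (x * y) ≤ nrm x + nrm y := by
  unfold nrm
  have : ∑ p, |y.v p| = ∑ p, |y.v (p - (x.s : ZMod m))| := by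
    symm
    exact Fintype.sum_equiv (Equiv.subRight ((x.s : ℤ) : ZMod m)) _ _ (fun _ => rfl)
  rw [this, ← Finset.sum_add_distrib]
  exact Finset.sum_le_sum fun p _ => abs_add_le _ _

/-- conjugates of generators and their inverses -/
def IsGen (x : FreeGroup (Fin 2)) : Prop := ∃ g : FreeGroup (Fin 2), ∃ i : Fin 2,
  x = g * FreeGroup.of i * g⁻¹ ∨ x = g * (FreeGroup.of i)⁻¹ * g⁻¹

theorem TJ_of (m : ℕ) (c : Fin 2 → ℤ) (j : ℕ) (i : Fin 2) :
    TJ m c j (FreeGroup.of i) = lam m c j i (Multiplicative.ofAdd 1) := TT_of _ i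

theorem TJ_gen (m : ℕ) [NeZero m] (c : Fin 2 → ℤ) (hc : ∀ i, |c i| ≤ 1) (j : ℕ) (hj : 2 ≤ j)
    (i : Fin 2) :
    (TJ m c j (FreeGroup.of i)).s = 0 ∧ nrm (TJ m c j (FreeGroup.of i)) ≤ 1 := by
  rw [TJ_of, lam_of_not _ _ _ _ _ (by intro _; simp; omega)]
  refine ⟨rfl, ?_⟩
  unfold nrm
  rw [Finset.sum_eq_single (0 : ZMod m)]
  · simpa using hc i
  · intro b _ hb; simp [hb]
  · simp

theorem TJ_gen_inv (m : ℕ) [NeZero m] (c : Fin 2 → ℤ) (hc : ∀ i, |c i| ≤ 1) (j : ℕ) (hj : 2 ≤ j)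
    (i : Fin 2) :
    (TJ m c j (FreeGroup.of i)⁻¹).s = 0 ∧ nrm (TJ m c j (FreeGroup.of i)⁻¹) ≤ 1 := by
  have h := TJ_gen m c hc j hj i
  rw [TJ_inv _ _ _ (by omega)]
  refine ⟨by simp [h.1], ?_⟩
  have : nrm (TJ m c j (FreeGroup.of i))⁻¹ = nrm (TJ m c j (FreeGroup.of i)) := by
    unfold nrm
    refine Finset.sum_congr rfl ?_
    intro p _
    simp [h.1]
  rw [this]; exact h.2

theorem sj_gen (j : ℕ) (i : Fin 2) : |sj j (FreeGroup.of i)| ≤ 1 := by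
  unfold sj; rw [TJ_of]; exact lam_s_abs _ _ _ _ _

theorem conj_bad (g s : FreeGroup (Fin 2)) (hs : ∃ i : Fin 2, s = FreeGroup.of i ∨
    s = (FreeGroup.of i)⁻¹) : ∃ B : Finset ℕ, B.card ≤ 6 ∧
    (∀ j, 2 ≤ j → j ∉ B → ∀ (m : ℕ) (_ : NeZero m) (c : Fin 2 → ℤ), (∀ i, |c i| ≤ 1) →
      (TJ m c j (g * s * g⁻¹)).s = 0 ∧ nrm (TJ m c j (g * s * g⁻¹)) ≤ 1) ∧
    ∀ j, 1 ≤ j → |sj j (g * s * g⁻¹)| ≤ 7 := by
  obtain ⟨B1, h1, h1', h1''⟩ := mul_bad g s
  obtain ⟨B2, h2, h2', h2''⟩ := mul_bad (g * s) g⁻¹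
  have key : ∀ j, 2 ≤ j → ∀ (m : ℕ) (_ : NeZero m) (c : Fin 2 → ℤ), (∀ i, |c i| ≤ 1) →
      (TJ m c j s).s = 0 ∧ nrm (TJ m c j s) ≤ 1 := by
    intro j hj m _ c hc
    obtain ⟨i, rfl | rfl⟩ := hs
    · exact TJ_gen m c hc j hj i
    · exact TJ_gen_inv m c hc j hj i
  have keys : ∀ j, 1 ≤ j → |sj j s| ≤ 1 := by
    intro j hj
    obtain ⟨i, rfl | rfl⟩ := hs
    · exact sj_gen j i
    · rw [sj_inv j hj, abs_neg]; exact sj_gen j i
  refine ⟨B1 ∪ B2, (Finset.card_union_le _ _).trans (by omega), ?_, ?_⟩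
  · intro j hj hB m hm c hc
    simp only [Finset.mem_union, not_or] at hB
    rw [h2' j (by omega) hB.2, h1' j (by omega) hB.1, TJ_inv _ _ _ (by omega)]
    obtain ⟨k1, k2⟩ := key j hj m hm c hc
    refine ⟨by simp [k1], ?_⟩
    rw [nrm_conj _ _ k1]; exact k2
  · intro j hj
    have e1 := abs_le.1 (h1'' j hj)
    have e2 := abs_le.1 (h2'' j hj)
    have e3 := abs_le.1 (keys j hj)
    rw [sj_inv j hj] at e2
    rw [abs_le]
    constructor <;> linarith [e1.1, e1.2, e2.1, e2.2, e3.1, e3.2]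

theorem list_bad (L : List (FreeGroup (Fin 2))) : (∀ x ∈ L, IsGen x) →
    ∃ B : Finset ℕ, B.card ≤ 9 * L.length ∧
    (∀ j, 2 ≤ j → j ∉ B → ∀ (m : ℕ) (_ : NeZero m) (c : Fin 2 → ℤ), (∀ i, |c i| ≤ 1) →
      (TJ m c j L.prod).s = 0 ∧ nrm (TJ m c j L.prod) ≤ L.length) ∧
    ∀ j, 1 ≤ j → |sj j L.prod| ≤ 10 * L.length := by
  induction L with
  | nil =>
    intro _
    refine ⟨∅, by simp, ?_, ?_⟩
    · intro j hj _ m _ c _
      have : TJ m c j 1 = 1 := TT_one _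
      rw [List.prod_nil, this]
      refine ⟨rfl, ?_⟩
      simp [nrm]
    · intro j _
      have : sj j 1 = 0 := by unfold sj TJ; rw [TT_one]; rfl
      rw [List.prod_nil, this]; simp
  | cons x L ih =>
    intro h
    obtain ⟨B1, h1, h1', h1''⟩ := ih fun y hy => h y (by simp [hy])
    obtain ⟨B2, h2, h2', h2''⟩ := mul_bad x L.prod
    obtain ⟨g, i, hx⟩ := h x (by simp)
    obtain ⟨B3, h3, h3', h3''⟩ : ∃ B : Finset ℕ, B.card ≤ 6 ∧
      (∀ j, 2 ≤ j → j ∉ B → ∀ (m : ℕ) (_ : NeZero m) (c : Fin 2 → ℤ), (∀ i, |c i| ≤ 1) →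
        (TJ m c j x).s = 0 ∧ nrm (TJ m c j x) ≤ 1) ∧ ∀ j, 1 ≤ j → |sj j x| ≤ 7 := by
      rcases hx with rfl | rfl
      · exact conj_bad g _ ⟨i, Or.inl rfl⟩
      · exact conj_bad g _ ⟨i, Or.inr rfl⟩
    refine ⟨B1 ∪ (B2 ∪ B3), ?_, ?_, ?_⟩
    · refine (Finset.card_union_le _ _).trans ?_
      have := Finset.card_union_le B2 B3
      simp only [List.length_cons]
      omega
    · intro j hj hB m hm c hc
      simp only [Finset.mem_union, not_or] at hB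
      rw [List.prod_cons, h2' j (by omega) hB.2.1]
      obtain ⟨a1, a2⟩ := h1' j hj hB.1 m hm c hc
      obtain ⟨b1, b2⟩ := h3' j hj hB.2.2 m hm c hc
      refine ⟨by simp [a1, b1], (nrm_mul _ _).trans ?_⟩
      simp only [List.length_cons, Nat.cast_add, Nat.cast_one]
      linarith
    · intro j hj
      have e1 := abs_le.1 (h1'' j hj)
      have e2 := abs_le.1 (h2'' j hj)
      have e3 := abs_le.1 (h3'' j hj)
      rw [List.prod_cons, abs_le]
      simp only [List.length_cons, Nat.cast_add, Nat.cast_one]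
      constructor <;> linarith [e1.1, e1.2, e2.1, e2.2, e3.1, e3.2]

theorem rel_bad (D : ℕ) (P Q R : FreeGroup (Fin 2)) (L : List (FreeGroup (Fin 2)))
    (hL : L.length ≤ D) (hg : ∀ x ∈ L, IsGen x) (h : L.prod = R⁻¹ * (P * Q)) :
    ∃ B : Finset ℕ, B.card ≤ 9 * D + 6 ∧
    (∀ j, 2 ≤ j → j ∉ B → ∀ (m : ℕ) (_ : NeZero m) (c : Fin 2 → ℤ), (∀ i, |c i| ≤ 1) →
      ∃ E : Lamp m, E.s = 0 ∧ nrm E ≤ D ∧ TJ m c j R * E = TJ m c j P * TJ m c j Q) ∧
    ∀ j, 1 ≤ j → |sj j R - sj j P - sj j Q| ≤ 10 * D + 6 := by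
  obtain ⟨B1, h1, h1', h1''⟩ := mul_bad P Q
  obtain ⟨B2, h2, h2', h2''⟩ := mul_bad R L.prod
  obtain ⟨B3, h3, h3', h3''⟩ := list_bad L hg
  have hRL : R * L.prod = P * Q := by rw [h]; group
  refine ⟨B1 ∪ (B2 ∪ B3), ?_, ?_, ?_⟩
  · refine (Finset.card_union_le _ _).trans ?_
    have := Finset.card_union_le B2 B3
    omega
  · intro j hj hB m hm c hc
    simp only [Finset.mem_union, not_or] at hB
    obtain ⟨a1, a2⟩ := h3' j hj hB.2.2 m hm c hc
    refine ⟨TJ m c j L.prod, a1, a2.trans (by exact_mod_cast hL), ?_⟩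
    rw [← h2' j (by omega) hB.2.1, hRL, h1' j (by omega) hB.1]
  · intro j hj
    have e1 := abs_le.1 (h1'' j hj)
    have e2 := abs_le.1 (h2'' j hj)
    have e3 := abs_le.1 (h3'' j hj)
    rw [hRL] at e2
    have hL' : (L.length : ℤ) ≤ D := by exact_mod_cast hL
    rw [abs_le]
    constructor <;> linarith [e1.1, e1.2, e2.1, e2.2, e3.1, e3.2]

theorem chi_list (c : Fin 2 → ℤ) (hc : ∀ i, |c i| ≤ 1) (L : List (FreeGroup (Fin 2))) :
    (∀ x ∈ L, IsGen x) → |(chi c L.prod).toAdd| ≤ L.length := by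
  induction L with
  | nil => intro _; simp
  | cons x L ih =>
    intro h
    have h1 := ih fun y hy => h y (by simp [hy])
    obtain ⟨g, i, hx⟩ := h x (by simp)
    have h2 : |(chi c x).toAdd| ≤ 1 := by
      rcases hx with rfl | rfl
      · have : chi c (g * FreeGroup.of i * g⁻¹) = Multiplicative.ofAdd (c i) := by
          rw [map_mul, map_mul, map_inv, mul_comm, ← mul_assoc, inv_mul_cancel, one_mul]
          simp [chi]
        rw [this]; exact hc i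
      · have : chi c (g * (FreeGroup.of i)⁻¹ * g⁻¹) = Multiplicative.ofAdd (- c i) := by
          rw [map_mul, map_mul, map_inv, map_inv, mul_comm, ← mul_assoc, inv_mul_cancel, one_mul]
          simp [chi]
        rw [this]; simpa using hc i
    rw [List.prod_cons, map_mul, toAdd_mul]
    refine (abs_add_le _ _).trans ?_
    simp only [List.length_cons, Nat.cast_add, Nat.cast_one]
    linarith

end Pool.Agent.H749R3
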