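import Mathlib
import Pool.Agent.H749R3.Rel

set_option autoImplicit false

namespace Pool.Agent.H749R3

open Monoid

/-- the element `a b^r a b^(r-1) ... a b a^P` -/
noncomputable def kf (P : ℕ) : ℕ → FreeGroup (Fin 2)
  | 0 => FreeGroup.of 0 ^ P
  | r + 1 => FreeGroup.of 0 * (FreeGroup.of 1 ^ (r + 1) * kf P r)

/-- its syllable list -/
def kl (P : ℕ) : ℕ → SL
  | 0 => [⟨0, Multiplicative.ofAdd (P : ℤ)⟩]
  | r + 1 => ⟨0, Multiplicative.ofAdd (1 : ℤ)⟩ ::
      ⟨1, Multiplicative.ofAdd ((r + 1 : ℕ) : ℤ)⟩ :: kl P r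

theorem kl_head (P r : ℕ) : ∀ p ∈ (kl P r).head?, p.1 = 0 := by
  cases r <;> simp [kl]

theorem kl_red (P : ℕ) (hP : 1 ≤ P) (r : ℕ) : Red (kl P r) := by
  induction r with
  | zero =>
    refine ⟨?_, List.isChain_singleton _⟩
    intro p hp
    simp only [kl, List.mem_singleton] at hp
    subst hp
    intro h
    have : (P : ℤ) = 0 := congrArg Multiplicative.toAdd h
    omega
  | succ r ih =>
    refine ⟨?_, ?_⟩
    · intro p hp
      simp only [kl, List.mem_cons] at hp
      rcases hp with rfl | rfl | hp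
      · intro h
        have : (1 : ℤ) = 0 := congrArg Multiplicative.toAdd h
        omega
      · intro h
        have : ((r + 1 : ℕ) : ℤ) = 0 := congrArg Multiplicative.toAdd h
        omega
      · exact ih.1 p hp
    · rw [kl, List.isChain_cons]
      refine ⟨?_, ?_⟩
      · intro y hy
        simp at hy
        subst hy
        simp
      · rw [List.isChain_cons]
        refine ⟨?_, ih.2⟩
        intro y hy
        rw [kl_head P r y hy]
        simp

theorem pr_kl (P r : ℕ) : io (kf P r) = pr (kl P r) := by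
  induction r with
  | zero =>
    rw [kl, kf, pr_single, map_pow]
    simp only [io, FreeGroup.lift_apply_of]
    rw [← map_pow]
    congr 1
    change Multiplicative.ofAdd (1 : ℤ) ^ P = Multiplicative.ofAdd (P : ℤ)
    rw [← ofAdd_nsmul]; simp
  | succ r ih =>
    rw [kl, kf, map_mul, map_mul, map_pow, ih,
      show (⟨0, Multiplicative.ofAdd (1 : ℤ)⟩ ::
      ⟨1, Multiplicative.ofAdd ((r + 1 : ℕ) : ℤ)⟩ :: kl P r : SL) =
      [⟨0, Multiplicative.ofAdd (1 : ℤ)⟩] ++ ([⟨1, Multiplicative.ofAdd ((r + 1 : ℕ) : ℤ)⟩] ++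
        kl P r) from rfl, pr_append, pr_append, pr_single, pr_single]
    simp only [io, FreeGroup.lift_apply_of]
    congr 2
    rw [← map_pow]
    congr 1
    change Multiplicative.ofAdd (1 : ℤ) ^ (r + 1) = Multiplicative.ofAdd ((r + 1 : ℕ) : ℤ)
    rw [← ofAdd_nsmul]; simp

theorem ev_kl_s (m : ℕ) (c : Fin 2 → ℤ) (P j : ℕ) (hj : 1 ≤ j) (r : ℕ) :
    (ev (lam m c j) (kl P r)).s = if j ≤ r then 1 else 0 := by
  induction r with
  | zero =>
    rw [kl, ev_single, lam_of_not _ _ _ _ _ (by intro h; exact absurd h (by decide))]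
    rw [if_neg (by omega)]
  | succ r ih =>
    rw [kl, show (⟨0, Multiplicative.ofAdd (1 : ℤ)⟩ ::
      ⟨1, Multiplicative.ofAdd ((r + 1 : ℕ) : ℤ)⟩ :: kl P r : SL) =
      [⟨0, Multiplicative.ofAdd (1 : ℤ)⟩] ++ ([⟨1, Multiplicative.ofAdd ((r + 1 : ℕ) : ℤ)⟩] ++
        kl P r) from rfl, ev_append, ev_append, ev_single, ev_single, Lamp.mul_s, Lamp.mul_s, ih,
      lam_of_not _ _ _ 0 _ (by intro h; exact absurd h (by decide))]
    simp only
    by_cases h : j = r + 1
    · have : (lam m c j 1 (Multiplicative.ofAdd ((r + 1 : ℕ) : ℤ))).s = 1 := by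
        unfold lam
        rw [if_pos ⟨rfl, by rw [h]; rfl⟩]
      rw [this, if_neg (by omega), if_pos (by omega)]; norm_num
    · have : (lam m c j 1 (Multiplicative.ofAdd ((r + 1 : ℕ) : ℤ))).s = 0 := by
        rw [lam_of_not]
        intro _
        simp only [toAdd_ofAdd, Int.natAbs_natCast]
        omega
      rw [this]
      by_cases h2 : j ≤ r
      · rw [if_pos h2, if_pos (by omega)]; norm_num
      · rw [if_neg h2, if_neg (by omega)]; norm_num

theorem sj_kf (P : ℕ) (hP : 1 ≤ P) (j : ℕ) (hj : 1 ≤ j) (r : ℕ) (hr : j ≤ r) :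
    sj j (kf P r) = 1 := by
  unfold sj TJ
  rw [TT_of_list _ _ _ (kl_red P hP r) (pr_kl P r), ev_kl_s _ _ _ _ hj, if_pos hr]

theorem chi_kf (c : Fin 2 → ℤ) (P r : ℕ) :
    2 * (chi c (kf P r)).toAdd = 2 * c 0 * (P + r) + c 1 * (r * (r + 1)) := by
  induction r with
  | zero => simp [kf, chi]; ring
  | succ r ih =>
    have h0 : chi c (FreeGroup.of 0) = Multiplicative.ofAdd (c 0) := by simp [chi]
    have h1 : chi c (FreeGroup.of 1) = Multiplicative.ofAdd (c 1) := by simp [chi]
    have : (chi c (kf P (r + 1))).toAdd = c 0 + ((r + 1) * c 1 + (chi c (kf P r)).toAdd) := by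
      rw [kf, map_mul (chi c), map_mul (chi c), map_pow (chi c), h0, h1, toAdd_mul, toAdd_mul, toAdd_pow]
      simp
    rw [this]
    push_cast
    linarith

end Pool.Agent.H749R3
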