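import Pool.Agent.H749R3.StepC

set_option autoImplicit false

/-! Counting homomorphisms from finite index subgroups of free groups to a finite abelian group. -/

namespace H749.Box

theorem card_ker_mul_range {G G' : Type*} [Group G] [Group G'] (f : G →* G') :
    Nat.card f.ker * Nat.card f.range = Nat.card G := by
  rw [← Subgroup.index_ker, Subgroup.card_mul_index]

section
variable {m : ℕ} (H : Subgroup (FreeGroup (Fin m))) (A : Type*) [CommGroup A]

theorem Ph_mul_fun (φ φ' : Fin m → (FreeGroup (Fin m) ⧸ H) → A) (w : FreeGroup (Fin m))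
    (x : FreeGroup (Fin m) ⧸ H) : Ph (φ * φ') w x = Ph φ w x * Ph φ' w x := by
  revert w x
  refine cocycle_ext (fun w x => Ph (φ * φ') w x) (fun w x => Ph φ w x * Ph φ' w x) ?_ ?_ ?_
  · intro w w' x; exact Ph_mul _ _ _ _
  · intro w w' x
    show Ph φ (w * w') x * Ph φ' (w * w') x = _
    rw [Ph_mul, Ph_mul]
    exact mul_mul_mul_comm _ _ _ _
  · intro s x
    show Ph (φ * φ') (FreeGroup.of s) x = Ph φ (FreeGroup.of s) x * Ph φ' (FreeGroup.of s) x
    rw [Ph_of, Ph_of, Ph_of]; rfl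

/-- the base point -/
def x0 : FreeGroup (Fin m) ⧸ H := ((1 : FreeGroup (Fin m)) : FreeGroup (Fin m) ⧸ H)

theorem smul_x0 (w : FreeGroup (Fin m)) :
    w • x0 H = ((w : FreeGroup (Fin m)) : FreeGroup (Fin m) ⧸ H) := by
  rw [x0, smul_mk, mul_one]

theorem smul_x0_mem {w : FreeGroup (Fin m)} (hw : w ∈ H) : w • x0 H = x0 H := by
  rw [smul_x0, x0, QuotientGroup.eq]; simpa using hw

/-- restriction of a cocycle to the stabiliser -/
def res : (Fin m → (FreeGroup (Fin m) ⧸ H) → A) →* (H →* A) where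
  toFun φ := 
    { toFun := fun v => Ph φ v.1 (x0 H)
      map_one' := Ph_one _ _
      map_mul' := by
        intro a b
        show Ph φ (a.1 * b.1) (x0 H) = _
        rw [Ph_mul, smul_x0_mem H b.2] }
  map_one' := by
    ext v
    show Ph (1 : Fin m → (FreeGroup (Fin m) ⧸ H) → A) v.1 (x0 H) = 1
    have := Ph_mul_fun H A 1 1 v.1 (x0 H)
    rw [mul_one] at this
    exact left_eq_mul.mp this
  map_mul' := by
    intro φ φ'
    ext v
    exact Ph_mul_fun H A φ φ' v.1 (x0 H)

/-- the coboundary -/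
def del : ((FreeGroup (Fin m) ⧸ H) → A) →* (Fin m → (FreeGroup (Fin m) ⧸ H) → A) where
  toFun β := fun s c => β (FreeGroup.of s • c) * (β c)⁻¹
  map_one' := by ext s c; simp
  map_mul' := by
    intro β β'
    ext s c
    simp only [Pi.mul_apply, mul_inv]
    exact mul_mul_mul_comm _ _ _ _

theorem Ph_del (β : (FreeGroup (Fin m) ⧸ H) → A) (w : FreeGroup (Fin m))
    (x : FreeGroup (Fin m) ⧸ H) : Ph (del H A β) w x = β (w • x) * (β x)⁻¹ := by
  revert w x
  refine cocycle_ext (fun w x => Ph (del H A β) w x) (fun w x => β (w • x) * (β x)⁻¹) ?_ ?_ ?_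
  · intro w w' x; exact Ph_mul _ _ _ _
  · intro w w' x
    show β ((w * w') • x) * (β x)⁻¹ = β (w • w' • x) * (β (w' • x))⁻¹ * (β (w' • x) * (β x)⁻¹)
    rw [mul_smul]; group
  · intro s x
    show Ph _ (FreeGroup.of s) x = _
    rw [Ph_of]; rfl

theorem res_surj : Function.Surjective (res H A) := by
  intro χ
  let r : FreeGroup (Fin m) ⧸ H → FreeGroup (Fin m) := Quotient.out
  have hr : ∀ c, ((r c : FreeGroup (Fin m)) : FreeGroup (Fin m) ⧸ H) = c := fun c =>
    Quotient.out_eq c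
  have hB : ∀ w c, (r (w • c))⁻¹ * w * r c ∈ H := by
    intro w c
    rw [mul_assoc, ← QuotientGroup.eq, hr, ← smul_mk, hr]
  let B : FreeGroup (Fin m) → FreeGroup (Fin m) ⧸ H → A := fun w c => χ ⟨_, hB w c⟩
  have hBmul : ∀ w w' c, B (w * w') c = B w (w' • c) * B w' c := by
    intro w w' c
    show χ _ = χ _ * χ _
    rw [← map_mul]
    congr 1
    apply Subtype.ext
    show (r ((w * w') • c))⁻¹ * (w * w') * r c =
      ((r (w • w' • c))⁻¹ * w * r (w' • c)) * ((r (w' • c))⁻¹ * w' * r c)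
    rw [mul_smul]; group
  refine ⟨fun s c => B (FreeGroup.of s) c, ?_⟩
  ext v
  show Ph (fun s c => B (FreeGroup.of s) c) v.1 (x0 H) = χ v
  have h1 : ∀ w c, Ph (fun s c => B (FreeGroup.of s) c) w c = B w c := by
    refine cocycle_ext _ B (fun w w' x => Ph_mul _ _ _ _) hBmul ?_
    intro s x
    rw [Ph_of]
  rw [h1]
  have h2 : r (x0 H) ∈ H := by
    have := hr (x0 H)
    rw [x0, QuotientGroup.eq, mul_one] at this
    exact (H.inv_mem_iff).1 this
  have h3 : (⟨_, hB v.1 (x0 H)⟩ : H) = (⟨r (x0 H), h2⟩ : H)⁻¹ * v * ⟨r (x0 H), h2⟩ := by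
    apply Subtype.ext
    show (r (v.1 • x0 H))⁻¹ * v.1 * r (x0 H) = (r (x0 H))⁻¹ * v.1 * r (x0 H)
    rw [smul_x0_mem H v.2]
  show χ _ = χ v
  rw [h3, map_mul, map_mul, map_inv, mul_comm, ← mul_assoc, mul_inv_cancel, one_mul]

theorem ker_res : (res H A).ker = (del H A).range := by
  ext φ
  rw [MonoidHom.mem_ker, MonoidHom.mem_range]
  constructor
  · intro h
    have h0 : ∀ v ∈ H, Ph φ v (x0 H) = 1 := fun v hv => DFunLike.congr_fun h (⟨v, hv⟩ : H)
    have h1 : ∀ w w' : FreeGroup (Fin m), w • x0 H = w' • x0 H → Ph φ w (x0 H) = Ph φ w' (x0 H) := by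
      intro w w' hw
      have h2 : w'⁻¹ * w ∈ H := by
        rw [← QuotientGroup.eq, ← smul_x0, ← smul_x0, hw]
      have h3 : w = w' * (w'⁻¹ * w) := by group
      rw [h3, Ph_mul, smul_x0_mem H h2, h0 _ h2, mul_one]
    let r : FreeGroup (Fin m) ⧸ H → FreeGroup (Fin m) := Quotient.out
    have hr : ∀ c, r c • x0 H = c := fun c => by
      rw [smul_x0]; exact Quotient.out_eq c
    refine ⟨fun c => Ph φ (r c) (x0 H), ?_⟩
    ext s c
    show Ph φ (r (FreeGroup.of s • c)) (x0 H) * (Ph φ (r c) (x0 H))⁻¹ = φ s c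
    have h4 : Ph φ (r (FreeGroup.of s • c)) (x0 H) = Ph φ (FreeGroup.of s * r c) (x0 H) := by
      apply h1
      rw [hr, mul_smul, hr]
    rw [h4, Ph_mul, hr, Ph_of, mul_inv_cancel_right]
  · rintro ⟨β, rfl⟩
    ext v
    show Ph (del H A β) v.1 (x0 H) = 1
    rw [Ph_del, smul_x0_mem H v.2, mul_inv_cancel]

theorem ker_del_card : Nat.card (del H A).ker = Nat.card A := by
  refine Nat.card_congr ?_
  refine Equiv.ofBijective (fun β => β.1 (x0 H)) ⟨?_, ?_⟩
  · have key : ∀ β : (del H A).ker, ∀ w : FreeGroup (Fin m), β.1 (w • x0 H) = β.1 (x0 H) := by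
      intro β w
      have h1 : del H A β.1 = 1 := β.2
      have h2 := Ph_del H A β.1 w (x0 H)
      have h3 : Ph (del H A β.1) w (x0 H) = 1 := by
        rw [h1]
        have := Ph_mul_fun H A 1 1 w (x0 H)
        rw [mul_one] at this
        exact left_eq_mul.mp this
      rw [h3] at h2
      exact (mul_inv_eq_one.mp h2.symm)
    intro β β' h
    apply Subtype.ext
    funext c
    obtain ⟨w, rfl⟩ := QuotientGroup.mk_surjective c
    have := (key β w).trans (h.trans (key β' w).symm)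
    rwa [smul_x0] at this
  · intro a
    refine ⟨⟨fun _ => a, ?_⟩, rfl⟩
    rw [MonoidHom.mem_ker]
    ext s c
    simp [del]

theorem card_hom [Finite A] (hH : H.index ≠ 0) :
    Nat.card (H →* A) * Nat.card A ^ H.index = Nat.card A ^ (m * H.index + 1) := by
  haveI : Finite (FreeGroup (Fin m) ⧸ H) := Nat.finite_of_card_ne_zero hH
  have h1 := card_ker_mul_range (res H A)
  have h2 := card_ker_mul_range (del H A)
  have h3 : Nat.card (res H A).range = Nat.card (H →* A) := by
    rw [MonoidHom.range_eq_top.2 (res_surj H A)]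
    exact Nat.card_congr Subgroup.topEquiv.toEquiv
  have hd : Nat.card (FreeGroup (Fin m) ⧸ H) = H.index := rfl
  rw [h3, ker_res] at h1
  rw [ker_del_card] at h2
  have h4 : Nat.card (Fin m → (FreeGroup (Fin m) ⧸ H) → A) = Nat.card A ^ (m * H.index) := by
    rw [Nat.card_fun, Nat.card_fun, hd, Nat.card_fin, ← pow_mul, mul_comm m]
  have h5 : Nat.card ((FreeGroup (Fin m) ⧸ H) → A) = Nat.card A ^ H.index := by
    rw [Nat.card_fun, hd]
  rw [h4] at h1
  rw [h5] at h2
  rw [pow_succ, ← h1, ← h2]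
  ring

end

/-- Finite index subgroups of a free group of rank `≥ 2` which are isomorphic have the same
index. -/
theorem index_eq_of_equiv {m : ℕ} (hm : 2 ≤ m) (H H' : Subgroup (FreeGroup (Fin m)))
    (hH : H.index ≠ 0) (hH' : H'.index ≠ 0) (e : H ≃* H') : H.index = H'.index := by
  have h1 := card_hom H (Multiplicative (ZMod 2)) hH
  have h2 := card_hom H' (Multiplicative (ZMod 2)) hH'
  have h3 : Nat.card (H →* Multiplicative (ZMod 2)) = Nat.card (H' →* Multiplicative (ZMod 2)) :=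
    Nat.card_congr (e.monoidHomCongrLeft.toEquiv)
  have h4 : Nat.card (Multiplicative (ZMod 2)) = 2 := by
    rw [Nat.card_congr Multiplicative.toAdd, Nat.card_zmod]
  rw [h4] at h1 h2
  rw [h3] at h1
  set c := Nat.card (H' →* Multiplicative (ZMod 2)) with hc
  have hcpos : 0 < c := by
    rcases Nat.eq_zero_or_pos c with h | h
    · rw [h, zero_mul] at h2
      have : 0 < 2 ^ (m * H'.index + 1) := by positivity
      omega
    · exact h
  -- c * 2^d = 2^(md+1), c * 2^d' = 2^(md'+1)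
  have h5 : 2 ^ (m * H.index + 1) * 2 ^ H'.index = 2 ^ (m * H'.index + 1) * 2 ^ H.index := by
    rw [← h1, ← h2]; ring
  rw [← pow_add, ← pow_add] at h5
  have h6 := Nat.pow_right_injective (le_refl 2) h5
  have h7 : m * H.index + 1 + H'.index = m * H'.index + 1 + H.index := h6
  obtain ⟨k, rfl⟩ : ∃ k, m = k + 2 := ⟨m - 2, by omega⟩
  have h8 : (k + 1) * H.index = (k + 1) * H'.index := by nlinarith
  exact Nat.eq_of_mul_eq_mul_left (by omega) h8

end H749.Box
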