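import Mathlib
import Pool.Agent.H749R3.KWord
import Pool.Agent.H749R3.Cyc

set_option autoImplicit false

namespace Pool.Agent.H749R3

/-- the number of markers used -/
def R0 (D : ℕ) : ℕ := (2 * D + 2) * (9 * D + 6) + 2 * ((9 * D + 6) * (10 * D + 6)) + 5

theorem main_step (D : ℕ) (q : ℕ → FreeGroup (Fin 2)) (P r : ℕ) (hP : 1 ≤ P) (hr : R0 D ≤ r)
    (hq1 : q 1 = kf P r)
    (hq : ∀ N M, 1 ≤ N → 1 ≤ M → ∃ L : List (FreeGroup (Fin 2)), L.length ≤ D ∧
      (∀ x ∈ L, IsGen x) ∧ L.prod = (q (N + M))⁻¹ * (q N * q M))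
    (n : ℕ) (hn : 1 ≤ n) :
    ∃ σ : ℕ, 1 ≤ σ ∧ n ≤ 2 * σ ∧ 2 * σ ≤ 3 * n ∧ ∀ c : Fin 2 → ℤ, (∀ i, |c i| ≤ 1) →
      ∃ z : ℤ, |(σ : ℤ) * z - (chi c (q n)).toAdd| ≤ 2 * (D : ℤ) * D := by
  classical
  have hrel : ∀ N M, 1 ≤ N → 1 ≤ M → ∃ B : Finset ℕ, B.card ≤ 9 * D + 6 ∧
    (∀ j, 2 ≤ j → j ∉ B → ∀ (m : ℕ) (_ : NeZero m) (c : Fin 2 → ℤ), (∀ i, |c i| ≤ 1) →
      ∃ E : Lamp m, E.s = 0 ∧ nrm E ≤ D ∧
        TJ m c j (q (N + M)) * E = TJ m c j (q N) * TJ m c j (q M)) ∧
    ∀ j, 1 ≤ j → |sj j (q (N + M)) - sj j (q N) - sj j (q M)| ≤ 10 * D + 6 := by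
    intro N M hN hM
    obtain ⟨L, h1, h2, h3⟩ := hq N M hN hM
    exact rel_bad D (q N) (q M) (q (N + M)) L h1 h2 h3
  choose! B hB1 hB2 hB3 using hrel
  -- marker of q 1
  have hs1 : ∀ j, 1 ≤ j → j ≤ r → sj j (q 1) = 1 := by
    intro j hj hjr; rw [hq1]; exact sj_kf P hP j hj r hjr
  -- sums
  have hS : ∀ i, ∑ j ∈ Finset.Icc 2 r, |sj j (q (i + 1)) - ((i + 1 : ℕ) : ℤ)| ≤
      (i : ℤ) * ((9 * D + 6) * (10 * D + 6)) := by
    intro i
    induction i with
    | zero =>
      rw [Finset.sum_eq_zero]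
      · simp
      · intro j hj
        rw [Finset.mem_Icc] at hj
        simp only [zero_add]
        rw [hs1 j (by omega) hj.2]; simp
    | succ i ih =>
      have hbd : ∑ j ∈ Finset.Icc 2 r, |sj j (q (i + 1 + 1)) - sj j (q (i + 1)) - sj j (q 1)| ≤
          ((9 * D + 6) * (10 * D + 6) : ℤ) := by
        calc ∑ j ∈ Finset.Icc 2 r, |sj j (q (i + 1 + 1)) - sj j (q (i + 1)) - sj j (q 1)|
            ≤ ∑ j ∈ Finset.Icc 2 r, (if j ∈ B (i + 1) 1 then (10 * D + 6 : ℤ) else 0) := by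
              refine Finset.sum_le_sum ?_
              intro j hj
              rw [Finset.mem_Icc] at hj
              split
              · exact hB3 (i + 1) 1 (by omega) (by omega) j (by omega)
              · rename_i hjB
                obtain ⟨E, hE, _, hE2⟩ := hB2 (i + 1) 1 (by omega) (by omega) j hj.1 hjB 1
                  inferInstance 0 (by simp)
                have := congrArg Lamp.s hE2
                simp only [Lamp.mul_s, TJ_s, hE] at this
                have h0 : sj j (q (i + 1 + 1)) - sj j (q (i + 1)) - sj j (q 1) = 0 := by linarith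
                rw [h0]; simp
          _ = (((Finset.Icc 2 r).filter (· ∈ B (i + 1) 1)).card : ℤ) * (10 * D + 6 : ℤ) := by
              rw [← Finset.sum_filter]; simp
          _ ≤ ((9 * D + 6 : ℕ) : ℤ) * (10 * D + 6 : ℤ) := by
              refine mul_le_mul_of_nonneg_right ?_ (by positivity)
              have h1 : ((Finset.Icc 2 r).filter (· ∈ B (i + 1) 1)).card ≤ (B (i + 1) 1).card :=
                Finset.card_le_card (by intro x hx; exact (Finset.mem_filter.1 hx).2)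
              exact_mod_cast h1.trans (hB1 (i + 1) 1 (by omega) (by omega))
          _ = _ := by push_cast; ring
      calc ∑ j ∈ Finset.Icc 2 r, |sj j (q (i + 1 + 1)) - ((i + 1 + 1 : ℕ) : ℤ)|
          ≤ ∑ j ∈ Finset.Icc 2 r, (|sj j (q (i + 1)) - ((i + 1 : ℕ) : ℤ)| +
            |sj j (q (i + 1 + 1)) - sj j (q (i + 1)) - sj j (q 1)|) := by
            refine Finset.sum_le_sum ?_
            intro j hj
            rw [Finset.mem_Icc] at hj
            have h1 := hs1 j (by omega) hj.2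
            refine le_trans (le_of_eq ?_) (abs_add_le _ _)
            rw [h1]; push_cast; ring_nf
        _ ≤ _ := by
            rw [Finset.sum_add_distrib]
            push_cast at ih hbd ⊢
            linarith
  -- a good marker
  set C : ℕ := (9 * D + 6) * (10 * D + 6) with hC
  set Bad : Finset ℕ := ((Finset.Icc 1 (2 * D)).biUnion fun i => B (i * n) n) ∪
    (B ((2 * D + 1) * n) 1 ∪ B 1 ((2 * D + 1) * n)) with hBad
  have hBadc : Bad.card ≤ (2 * D + 2) * (9 * D + 6) := by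
    have h1 : ((Finset.Icc 1 (2 * D)).biUnion fun i => B (i * n) n).card ≤
        (2 * D) * (9 * D + 6) := by
      refine (Finset.card_biUnion_le_card_mul _ _ (9 * D + 6) ?_).trans (by simp)
      intro i hi
      rw [Finset.mem_Icc] at hi
      exact hB1 _ _ (Nat.mul_pos (by omega) (by omega)) hn
    have h2 := hB1 ((2 * D + 1) * n) 1 (Nat.mul_pos (by omega) (by omega)) le_rfl
    have h3 := hB1 1 ((2 * D + 1) * n) le_rfl (Nat.mul_pos (by omega) (by omega))
    have h4 := Finset.card_union_le ((Finset.Icc 1 (2 * D)).biUnion fun i => B (i * n) n)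
      (B ((2 * D + 1) * n) 1 ∪ B 1 ((2 * D + 1) * n))
    have h5 := Finset.card_union_le (B ((2 * D + 1) * n) 1) (B 1 ((2 * D + 1) * n))
    rw [hBad]
    nlinarith
  set J2 : Finset ℕ := (Finset.Icc 2 r).filter fun j => (n : ℤ) < 2 * |sj j (q n) - (n : ℤ)|
    with hJ2
  have hJ2c : J2.card ≤ 2 * C := by
    obtain ⟨n', rfl⟩ : ∃ n', n = n' + 1 := ⟨n - 1, by omega⟩
    have h1 := hS n'
    have h2 : (J2.card : ℤ) * ((n' + 1 : ℕ) : ℤ) ≤ 2 * ∑ j ∈ Finset.Icc 2 r,
        |sj j (q (n' + 1)) - ((n' + 1 : ℕ) : ℤ)| := by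
      calc (J2.card : ℤ) * ((n' + 1 : ℕ) : ℤ) = ∑ j ∈ J2, ((n' + 1 : ℕ) : ℤ) := by simp
        _ ≤ ∑ j ∈ J2, 2 * |sj j (q (n' + 1)) - ((n' + 1 : ℕ) : ℤ)| := by
            refine Finset.sum_le_sum ?_
            intro j hj
            rw [hJ2, Finset.mem_filter] at hj
            exact hj.2.le
        _ ≤ ∑ j ∈ Finset.Icc 2 r, 2 * |sj j (q (n' + 1)) - ((n' + 1 : ℕ) : ℤ)| := by
            refine Finset.sum_le_sum_of_subset_of_nonneg (Finset.filter_subset _ _) ?_
            intro _ _ _; positivity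
        _ = _ := by rw [Finset.mul_sum]
    have h3 : (J2.card : ℤ) * ((n' + 1 : ℕ) : ℤ) ≤ (2 * C : ℕ) * ((n' + 1 : ℕ) : ℤ) := by
      refine h2.trans ?_
      have h4 : (C : ℤ) = (9 * D + 6) * (10 * D + 6) := by rw [hC]; push_cast; ring
      have h6 : ((2 * C : ℕ) : ℤ) * ((n' + 1 : ℕ) : ℤ) =
          2 * ((n' : ℤ) * ((9 * D + 6) * (10 * D + 6))) + 2 * ((9 * D + 6) * (10 * D + 6)) := by
        push_cast
        rw [h4]; ring
      rw [h6]
      have : (0 : ℤ) ≤ (9 * D + 6) * (10 * D + 6) := by positivity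
      linarith
    have h5 : (J2.card : ℤ) ≤ (2 * C : ℕ) := le_of_mul_le_mul_right h3 (by positivity)
    exact_mod_cast h5
  obtain ⟨j, hj, hjn⟩ : ∃ j ∈ Finset.Icc 2 r, j ∉ Bad ∪ J2 := by
    by_contra hcon
    push Not at hcon
    have h1 := Finset.card_le_card (show Finset.Icc 2 r ⊆ Bad ∪ J2 from hcon)
    have h2 := Finset.card_union_le Bad J2
    rw [Nat.card_Icc] at h1
    unfold R0 at hr
    omega
  rw [Finset.mem_Icc] at hj
  simp only [Finset.mem_union, not_or] at hjn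
  obtain ⟨hjBad, hjJ2⟩ := hjn
  rw [hBad] at hjBad
  simp only [Finset.mem_union, Finset.mem_biUnion, not_or, not_exists, not_and] at hjBad
  obtain ⟨hb1, hb2, hb3⟩ := hjBad
  have hs2 : 2 * |sj j (q n) - (n : ℤ)| ≤ n := by
    by_contra hcon
    push Not at hcon
    exact hjJ2 (by rw [hJ2, Finset.mem_filter, Finset.mem_Icc]; exact ⟨hj, hcon⟩)
  have hs3 := abs_le.1 (show |sj j (q n) - (n : ℤ)| ≤ (n : ℤ) / 2 by omega)
  obtain ⟨σ, hσ⟩ : ∃ σ : ℕ, sj j (q n) = σ := ⟨(sj j (q n)).toNat, by omega⟩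
  rw [hσ] at hs3
  have hσ1 : 1 ≤ σ := by omega
  refine ⟨σ, hσ1, by omega, by omega, ?_⟩
  intro c hc
  obtain ⟨m, hm⟩ : ∃ m : ℕ, m = (2 * D + 1) * σ := ⟨_, rfl⟩
  have hmz : NeZero m := ⟨by rw [hm]; positivity⟩
  have hchain : ∀ i, i ≤ 2 * D → (TJ m c j (q ((i + 1) * n))).s = ((i + 1) * σ : ℕ) ∧
      ∑ p, |(TJ m c j (q ((i + 1) * n))).v p - ∑ k ∈ Finset.range (i + 1),
        (TJ m c j (q n)).v (p - ((k * σ : ℕ) : ZMod m))| ≤ (i : ℤ) * D := by
    intro i
    induction i with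
    | zero =>
      intro _
      refine ⟨?_, ?_⟩
      · rw [TJ_s]; simp [hσ]
      · simp
    | succ i ih =>
      intro hi
      obtain ⟨h1, h2⟩ := ih (by omega)
      obtain ⟨E, hE, hEn, hEq⟩ := hB2 ((i + 1) * n) n (Nat.mul_pos (by omega) (by omega)) hn j hj.1
        (hb1 (i + 1) (by rw [Finset.mem_Icc]; omega)) m hmz c hc
      have e0 : (i + 1) * n + n = (i + 1 + 1) * n := by ring
      rw [e0] at hEq
      have e1 := congrArg Lamp.s hEq
      simp only [Lamp.mul_s, hE] at e1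
      rw [h1] at e1
      have e2 : (TJ m c j (q n)).s = σ := by rw [TJ_s, hσ]
      rw [e2] at e1
      refine ⟨by push_cast at e1 ⊢; linarith, ?_⟩
      have e3 : ∀ p, (TJ m c j (q ((i + 1 + 1) * n))).v p +
          E.v (p - (((TJ m c j (q ((i + 1 + 1) * n))).s : ℤ) : ZMod m)) =
          (TJ m c j (q ((i + 1) * n))).v p +
            (TJ m c j (q n)).v (p - (((i + 1) * σ : ℕ) : ZMod m)) := by
        intro p
        have := congrArg (fun x => Lamp.v x p) hEq
        simp only [Lamp.mul_v, h1] at this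
        rw [this]
        congr 2
        push_cast; ring
      calc ∑ p, |(TJ m c j (q ((i + 1 + 1) * n))).v p - ∑ k ∈ Finset.range (i + 1 + 1),
        (TJ m c j (q n)).v (p - ((k * σ : ℕ) : ZMod m))|
          ≤ ∑ p, (|(TJ m c j (q ((i + 1) * n))).v p - ∑ k ∈ Finset.range (i + 1),
        (TJ m c j (q n)).v (p - ((k * σ : ℕ) : ZMod m))| +
            |E.v (p - (((TJ m c j (q ((i + 1 + 1) * n))).s : ℤ) : ZMod m))|) := by
            refine Finset.sum_le_sum ?_
            intro p _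
            rw [Finset.sum_range_succ (n := i + 1)]
            have := e3 p
            rw [← abs_neg (E.v _)]
            refine le_trans (le_of_eq ?_) (abs_add_le _ _)
            congr 1
            linarith
        _ ≤ _ := by
            rw [Finset.sum_add_distrib]
            have h3 : ∑ p, |E.v (p - (((TJ m c j (q ((i + 1 + 1) * n))).s : ℤ) : ZMod m))| =
                nrm E := Fintype.sum_equiv (Equiv.subRight _) _ _ (fun _ => rfl)
            rw [h3]
            have h5 : ((i + 1 : ℕ) : ℤ) * D = i * D + D := by push_cast; ring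
            rw [h5]
            linarith
  obtain ⟨hc1, hc2⟩ := hchain (2 * D) le_rfl
  have hper : (((2 * D + 1) * σ : ℕ) : ZMod m) = 0 := by rw [← hm]; exact ZMod.natCast_self m
  obtain ⟨E, hE, hEn, hEq⟩ := hB2 ((2 * D + 1) * n) 1 (Nat.mul_pos (by omega) (by omega)) le_rfl j
    hj.1 hb2 m hmz c hc
  obtain ⟨E', hE', hEn', hEq'⟩ := hB2 1 ((2 * D + 1) * n) le_rfl (Nat.mul_pos (by omega) (by omega))
    j hj.1 hb3 m hmz c hc
  have e1 : ∀ p, (TJ m c j (q ((2 * D + 1) * n + 1))).v p +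
      E.v (p - (((TJ m c j (q ((2 * D + 1) * n + 1))).s : ℤ) : ZMod m)) =
      (TJ m c j (q ((2 * D + 1) * n))).v p + (TJ m c j (q 1)).v p := by
    intro p
    have := congrArg (fun x => Lamp.v x p) hEq
    simp only [Lamp.mul_v, hc1] at this
    rw [this]
    congr 2
    have h0 : ((((2 * D + 1) * σ : ℕ) : ℤ) : ZMod m) = 0 := by
      rw [Int.cast_natCast]; exact hper
    rw [h0, sub_zero]
  have e2 : ∀ p, (TJ m c j (q ((2 * D + 1) * n + 1))).v p +
      E'.v (p - (((TJ m c j (q ((2 * D + 1) * n + 1))).s : ℤ) : ZMod m)) =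
      (TJ m c j (q 1)).v p + (TJ m c j (q ((2 * D + 1) * n))).v (p - 1) := by
    intro p
    rw [add_comm 1 ((2 * D + 1) * n)] at hEq'
    have := congrArg (fun x => Lamp.v x p) hEq'
    simp only [Lamp.mul_v] at this
    rw [this]
    have h0 : (TJ m c j (q 1)).s = 1 := by rw [TJ_s]; exact hs1 j (by omega) hj.2
    rw [h0]; simp
  have hjump : ∑ p, |(TJ m c j (q ((2 * D + 1) * n))).v p -
      (TJ m c j (q ((2 * D + 1) * n))).v (p - 1)| ≤ 2 * (D : ℤ) := by
    calc ∑ p, |(TJ m c j (q ((2 * D + 1) * n))).v p -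
      (TJ m c j (q ((2 * D + 1) * n))).v (p - 1)|
        ≤ ∑ p, (|E.v (p - (((TJ m c j (q ((2 * D + 1) * n + 1))).s : ℤ) : ZMod m))| +
          |E'.v (p - (((TJ m c j (q ((2 * D + 1) * n + 1))).s : ℤ) : ZMod m))|) := by
          refine Finset.sum_le_sum ?_
          intro p _
          have h1 := e1 p
          have h2 := e2 p
          rw [← abs_neg (E'.v _)]
          refine le_trans (le_of_eq ?_) (abs_add_le _ _)
          congr 1
          linarith
      _ ≤ _ := by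
          rw [Finset.sum_add_distrib]
          have h3 : ∑ p, |E.v (p - (((TJ m c j (q ((2 * D + 1) * n + 1))).s : ℤ) : ZMod m))| =
              nrm E := Fintype.sum_equiv (Equiv.subRight _) _ _ (fun _ => rfl)
          have h4 : ∑ p, |E'.v (p - (((TJ m c j (q ((2 * D + 1) * n + 1))).s : ℤ) : ZMod m))| =
              nrm E' := Fintype.sum_equiv (Equiv.subRight _) _ _ (fun _ => rfl)
          rw [h3, h4]
          linarith
  obtain ⟨z, hz⟩ := cyc D σ hσ1 m hm (TJ m c j (q ((2 * D + 1) * n))).v (TJ m c j (q n)).v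
    (by push_cast at hc2 ⊢; linarith) hjump
  refine ⟨z, ?_⟩
  rw [← TJ_vsum m c j]
  exact hz

end Pool.Agent.H749R3
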