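import Pool.Agent.H749R3.Cocyc

set_option autoImplicit false

/-! From coarse maps between finite quotients to a homomorphism. -/

namespace H749.Box

theorem smul_mk {G : Type*} [Group G] (M : Subgroup G) (w a : G) :
    w • (QuotientGroup.mk a : G ⧸ M) = QuotientGroup.mk (w * a) := rfl

theorem smul_eq_self_iff {G : Type*} [Group G] (M : Subgroup G) [M.Normal] (w : G) (x : G ⧸ M) :
    w • x = x ↔ w ∈ M := by
  induction x using QuotientGroup.induction_on with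
  | H a =>
    rw [smul_mk, QuotientGroup.eq]
    have h : (w * a)⁻¹ * a = a⁻¹ * w⁻¹ * a⁻¹⁻¹ := by group
    rw [h]
    constructor
    · intro h1
      have h2 := ‹M.Normal›.conj_mem _ h1 a
      have h3 : a * (a⁻¹ * w⁻¹ * a⁻¹⁻¹) * a⁻¹ = w⁻¹ := by group
      rw [h3] at h2
      simpa using h2
    · intro h1
      exact ‹M.Normal›.conj_mem _ (M.inv_mem h1) _

theorem stepC {m n : ℕ} (M : Subgroup (FreeGroup (Fin m))) [M.Normal]
    (N : Subgroup (FreeGroup (Fin n))) [N.Normal]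
    (L C R : ℕ) (hC : C = L * L + 2 * L + 1)
    (f : FreeGroup (Fin m) ⧸ M → FreeGroup (Fin n) ⧸ N)
    (g : FreeGroup (Fin n) ⧸ N → FreeGroup (Fin m) ⧸ M)
    (H1 : ∀ x (s : Fin m), ∃ u : FreeGroup (Fin n), u.norm ≤ L ∧ f (FreeGroup.of s • x) = u • f x)
    (H2 : ∀ y (t : Fin n), ∃ u : FreeGroup (Fin m), u.norm ≤ L ∧ g (FreeGroup.of t • y) = u • g y)
    (H3 : ∀ x, ∃ u : FreeGroup (Fin m), u.norm ≤ L ∧ g (f x) = u • x)
    (H4 : ∀ y, ∃ u : FreeGroup (Fin n), u.norm ≤ L ∧ f (g y) = u • y)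
    (girth : ∀ w ∈ M, w.norm ≤ R → w = 1) (hR1 : C ≤ R) (hR2 : L * C ≤ R) :
    ∃ ρ : N →* FreeGroup (Fin m), ρ.range = M ∧
      ρ.ker = (Subgroup.normalClosure {v | v ∈ N ∧ v.norm ≤ C}).subgroupOf N := by
  classical
  choose φ hφ1 hφ2 using H1
  choose ψ hψ1 hψ2 using H2
  choose h hh1 hh2 using H3
  choose k hk1 hk2 using H4
  let Φ : FreeGroup (Fin m) → FreeGroup (Fin m) ⧸ M → FreeGroup (Fin n) :=
    Ph (fun s x => φ x s)
  let Ψ : FreeGroup (Fin n) → FreeGroup (Fin n) ⧸ N → FreeGroup (Fin m) :=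
    Ph (fun s x => ψ x s)
  have Φmul : ∀ w w' x, Φ (w * w') x = Φ w (w' • x) * Φ w' x := fun w w' x => Ph_mul _ w w' x
  have Ψmul : ∀ w w' x, Ψ (w * w') x = Ψ w (w' • x) * Ψ w' x := fun w w' x => Ph_mul _ w w' x
  have Φinv : ∀ w x, Φ w⁻¹ x = (Φ w (w⁻¹ • x))⁻¹ := fun w x => Ph_inv _ w x
  have Ψinv : ∀ w x, Ψ w⁻¹ x = (Ψ w (w⁻¹ • x))⁻¹ := fun w x => Ph_inv _ w x
  have Φone : ∀ x, Φ 1 x = 1 := fun x => Ph_one _ x
  have Ψone : ∀ x, Ψ 1 x = 1 := fun x => Ph_one _ x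
  have Φof : ∀ s x, Φ (FreeGroup.of s) x = φ x s := fun s x => Ph_of _ s x
  have Ψof : ∀ s x, Ψ (FreeGroup.of s) x = ψ x s := fun s x => Ph_of _ s x
  have Φnorm : ∀ w x, (Φ w x).norm ≤ L * w.norm := fun w x =>
    norm_Ph_le _ L (fun s x => hφ1 x s) w x
  have Ψnorm : ∀ w x, (Ψ w x).norm ≤ L * w.norm := fun w x =>
    norm_Ph_le _ L (fun s x => hψ1 x s) w x
  -- equivariance
  have Φeq : ∀ w x, f (w • x) = Φ w x • f x := by
    intro w
    induction w using FreeGroup.induction_on with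
    | C1 => intro x; rw [Φone, one_smul, one_smul]
    | of s => intro x; rw [Φof, hφ2]
    | inv_of s _ =>
      intro x
      rw [Φinv, Φof, eq_inv_smul_iff, ← hφ2, smul_inv_smul]
    | mul a b ha hb => intro x; rw [Φmul, mul_smul, ha, hb, mul_smul]
  have Ψeq : ∀ w x, g (w • x) = Ψ w x • g x := by
    intro w
    induction w using FreeGroup.induction_on with
    | C1 => intro x; rw [Ψone, one_smul, one_smul]
    | of s => intro x; rw [Ψof, hψ2]
    | inv_of s _ =>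
      intro x
      rw [Ψinv, Ψof, eq_inv_smul_iff, ← hψ2, smul_inv_smul]
    | mul a b ha hb => intro x; rw [Ψmul, mul_smul, ha, hb, mul_smul]
  -- the first exact relation
  have rel1 : ∀ w x, Ψ (Φ w x) (f x) = h (w • x) * w * (h x)⁻¹ := by
    refine cocycle_ext (fun w x => Ψ (Φ w x) (f x)) (fun w x => h (w • x) * w * (h x)⁻¹) ?_ ?_ ?_
    · intro w w' x
      show Ψ (Φ (w * w') x) (f x) = Ψ (Φ w (w' • x)) (f (w' • x)) * Ψ (Φ w' x) (f x)
      rw [Φmul, Ψmul, ← Φeq]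
    · intro w w' x
      show h ((w * w') • x) * (w * w') * (h x)⁻¹ = h (w • w' • x) * w * (h (w' • x))⁻¹ *
        (h (w' • x) * w' * (h x)⁻¹)
      rw [mul_smul]; group
    · intro s x
      show Ψ (Φ (FreeGroup.of s) x) (f x) = h (FreeGroup.of s • x) * FreeGroup.of s * (h x)⁻¹
      rw [Φof]
      have e1 : (Ψ (φ x s) (f x) * h x) • x = (h (FreeGroup.of s • x) * FreeGroup.of s) • x := by
        rw [mul_smul, ← hh2, ← Ψeq, ← hφ2, hh2, mul_smul]
      have e2 : (Ψ (φ x s) (f x) * h x)⁻¹ * (h (FreeGroup.of s • x) * FreeGroup.of s) ∈ M := by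
        rw [← smul_eq_self_iff M _ x, mul_smul, ← e1, inv_smul_smul]
      have e3 : (Ψ (φ x s) (f x) * h x)⁻¹ * (h (FreeGroup.of s • x) * FreeGroup.of s) = 1 := by
        apply girth _ e2
        refine le_trans ?_ hR1
        refine (FreeGroup.norm_mul_le _ _).trans ?_
        rw [FreeGroup.norm_inv_eq]
        have n1 := FreeGroup.norm_mul_le (Ψ (φ x s) (f x)) (h x)
        have n2 := FreeGroup.norm_mul_le (h (FreeGroup.of s • x)) (FreeGroup.of s)
        have n3 : (Ψ (φ x s) (f x)).norm ≤ L * L :=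
          (Ψnorm _ _).trans (Nat.mul_le_mul_left L (hφ1 x s))
        have n4 := hh1 x
        have n5 := hh1 (FreeGroup.of s • x)
        have n6 : (FreeGroup.of s : FreeGroup (Fin m)).norm = 1 := FreeGroup.norm_of s
        rw [hC]
        omega
      rw [inv_mul_eq_one] at e3
      rw [← e3]; group
  -- the second relation
  set 𝒩 : Subgroup (FreeGroup (Fin n)) := Subgroup.normalClosure {v | v ∈ N ∧ v.norm ≤ C} with h𝒩
  have rel2 : ∀ v y, ((Φ (Ψ v y) (g y) : FreeGroup (Fin n)) : FreeGroup (Fin n) ⧸ 𝒩) =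
      ((k (v • y) * v * (k y)⁻¹ : FreeGroup (Fin n)) : FreeGroup (Fin n) ⧸ 𝒩) := by
    refine cocycle_ext (fun v y => ((Φ (Ψ v y) (g y) : FreeGroup (Fin n)) : FreeGroup (Fin n) ⧸ 𝒩))
      (fun v y => ((k (v • y) * v * (k y)⁻¹ : FreeGroup (Fin n)) : FreeGroup (Fin n) ⧸ 𝒩)) ?_ ?_ ?_
    · intro w w' x
      show ((Φ (Ψ (w * w') x) (g x) : FreeGroup (Fin n)) : FreeGroup (Fin n) ⧸ 𝒩) =
        ((Φ (Ψ w (w' • x)) (g (w' • x)) : FreeGroup (Fin n)) : FreeGroup (Fin n) ⧸ 𝒩) *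
        ((Φ (Ψ w' x) (g x) : FreeGroup (Fin n)) : FreeGroup (Fin n) ⧸ 𝒩)
      rw [Ψmul, Φmul, ← Ψeq, QuotientGroup.mk_mul]
    · intro w w' x
      show ((k ((w * w') • x) * (w * w') * (k x)⁻¹ : FreeGroup (Fin n)) : FreeGroup (Fin n) ⧸ 𝒩) =
        ((k (w • w' • x) * w * (k (w' • x))⁻¹ : FreeGroup (Fin n)) : FreeGroup (Fin n) ⧸ 𝒩) *
        ((k (w' • x) * w' * (k x)⁻¹ : FreeGroup (Fin n)) : FreeGroup (Fin n) ⧸ 𝒩)
      rw [← QuotientGroup.mk_mul, mul_smul]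
      congr 1
      group
    · intro s x
      show ((Φ (Ψ (FreeGroup.of s) x) (g x) : FreeGroup (Fin n)) : FreeGroup (Fin n) ⧸ 𝒩) =
        ((k (FreeGroup.of s • x) * FreeGroup.of s * (k x)⁻¹ : FreeGroup (Fin n)) :
          FreeGroup (Fin n) ⧸ 𝒩)
      rw [Ψof]
      have e1 : (Φ (ψ x s) (g x) * k x) • x = (k (FreeGroup.of s • x) * FreeGroup.of s) • x := by
        rw [mul_smul, ← hk2, ← Φeq, ← hψ2, hk2, mul_smul]
      have e2 : (Φ (ψ x s) (g x) * k x)⁻¹ * (k (FreeGroup.of s • x) * FreeGroup.of s) ∈ N := by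
        rw [← smul_eq_self_iff N _ x, mul_smul, ← e1, inv_smul_smul]
      have e3 : (Φ (ψ x s) (g x) * k x)⁻¹ * (k (FreeGroup.of s • x) * FreeGroup.of s) ∈ 𝒩 := by
        apply Subgroup.subset_normalClosure
        refine ⟨e2, ?_⟩
        refine (FreeGroup.norm_mul_le _ _).trans ?_
        rw [FreeGroup.norm_inv_eq]
        have n1 := FreeGroup.norm_mul_le (Φ (ψ x s) (g x)) (k x)
        have n2 := FreeGroup.norm_mul_le (k (FreeGroup.of s • x)) (FreeGroup.of s)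
        have n3 : (Φ (ψ x s) (g x)).norm ≤ L * L :=
          (Φnorm _ _).trans (Nat.mul_le_mul_left L (hψ1 x s))
        have n4 := hk1 x
        have n5 := hk1 (FreeGroup.of s • x)
        have n6 : (FreeGroup.of s : FreeGroup (Fin n)).norm = 1 := FreeGroup.norm_of s
        rw [hC]
        omega
      rw [QuotientGroup.eq]
      have e4 := Subgroup.normalClosure_normal.conj_mem _ e3 (k x) 
      have e5 : (Φ (ψ x s) (g x))⁻¹ * (k (FreeGroup.of s • x) * FreeGroup.of s * (k x)⁻¹) =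
        k x * ((Φ (ψ x s) (g x) * k x)⁻¹ * (k (FreeGroup.of s • x) * FreeGroup.of s)) *
          (k x)⁻¹ := by group
      rw [e5]; exact e4
  have hsmulN : ∀ v ∈ N, ∀ y : FreeGroup (Fin n) ⧸ N, v • y = y := fun v hv y =>
    (smul_eq_self_iff N v y).2 hv
  have hsmulM : ∀ v ∈ M, ∀ y : FreeGroup (Fin m) ⧸ M, v • y = y := fun v hv y =>
    (smul_eq_self_iff M v y).2 hv
  have ΨN : ∀ v ∈ N, ∀ y, Ψ v y ∈ M := by
    intro v hv y
    rw [← smul_eq_self_iff M _ (g y), ← Ψeq, hsmulN v hv]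
  -- the normal subgroup of elements acting trivially
  let K : Subgroup (FreeGroup (Fin n)) :=
    { carrier := {v | v ∈ N ∧ ∀ y, Ψ v y = 1}
      one_mem' := ⟨N.one_mem, fun y => Ψone y⟩
      mul_mem' := by
        intro a b ha hb
        refine ⟨N.mul_mem ha.1 hb.1, fun y => ?_⟩
        rw [Ψmul, ha.2, hb.2, one_mul]
      inv_mem' := by
        intro a ha
        refine ⟨N.inv_mem ha.1, fun y => ?_⟩
        rw [Ψinv, ha.2, inv_one] }
  have hK : K.Normal := by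
    constructor
    intro v hv u
    refine ⟨‹N.Normal›.conj_mem _ hv.1 u, fun y => ?_⟩
    rw [Ψmul, Ψmul, hv.2, mul_one]
    have h1 : v • u⁻¹ • y = u⁻¹ • y := hsmulN v hv.1 _
    rw [h1, ← Ψmul, mul_inv_cancel, Ψone]
  have h𝒩K : 𝒩 ≤ K := by
    apply Subgroup.normalClosure_le_normal
    rintro v ⟨hv1, hv2⟩
    refine ⟨hv1, fun y => ?_⟩
    apply girth _ (ΨN v hv1 y)
    exact ((Ψnorm v y).trans (Nat.mul_le_mul_left L hv2)).trans hR2
  set x0 : FreeGroup (Fin m) ⧸ M := ((1 : FreeGroup (Fin m)) : FreeGroup (Fin m) ⧸ M) with hx0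
  set y0 := f x0 with hy0
  let ρ : N →* FreeGroup (Fin m) :=
    { toFun := fun v => Ψ v.1 y0
      map_one' := Ψone y0
      map_mul' := by
        intro a b
        show Ψ (a.1 * b.1) y0 = _
        rw [Ψmul, hsmulN b.1 b.2] }
  refine ⟨ρ, ?_, ?_⟩
  · apply le_antisymm
    · rintro _ ⟨v, rfl⟩
      exact ΨN v.1 v.2 y0
    · intro w hw
      have hw' : (h x0)⁻¹ * w * (h x0)⁻¹⁻¹ ∈ M := ‹M.Normal›.conj_mem _ hw _
      set w' := (h x0)⁻¹ * w * (h x0)⁻¹⁻¹ with hw'def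
      have h1 : Φ w' x0 ∈ N := by
        rw [← smul_eq_self_iff N _ (f x0), ← Φeq, hsmulM w' hw']
      refine ⟨⟨Φ w' x0, h1⟩, ?_⟩
      show Ψ (Φ w' x0) (f x0) = w
      rw [rel1, hsmulM w' hw', hw'def]
      group
  · ext v
    rw [MonoidHom.mem_ker, Subgroup.mem_subgroupOf]
    constructor
    · intro hv
      have h0 : Ψ v.1 y0 = 1 := hv
      have h1 := rel2 v.1 y0
      rw [h0, Φone, hsmulN v.1 v.2, QuotientGroup.eq, inv_one, one_mul] at h1
      have h2 := Subgroup.normalClosure_normal.conj_mem _ h1 (k y0)⁻¹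
      have h3 : (k y0)⁻¹ * (k y0 * v.1 * (k y0)⁻¹) * (k y0)⁻¹⁻¹ = v.1 := by group
      rw [h3] at h2
      exact h2
    · intro hv
      exact (h𝒩K hv).2 y0

end H749.Box
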